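import Mathlib

set_option autoImplicit false

namespace Pool.Agent.Helper41.Wob

open Finset

/-- sign of an element of `ZMod 2` -/
def sgn (a : ZMod 2) : ℝ := if a = 0 then 1 else -1

lemma sgn_zero : sgn 0 = 1 := by simp [sgn]
lemma sgn_one : sgn 1 = -1 := by simp [sgn]

lemma zmod2_cases (a : ZMod 2) : a = 0 ∨ a = 1 := by
  revert a; decide

lemma sgn_add (a b : ZMod 2) : sgn (a + b) = sgn a * sgn b := by
  rcases zmod2_cases a with rfl | rfl <;> rcases zmod2_cases b with rfl | rfl <;>
    simp [sgn_zero, sgn_one, show (1 : ZMod 2) + 1 = 0 from rfl]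

lemma sgn_sq (a : ZMod 2) : sgn a * sgn a = 1 := by
  rcases zmod2_cases a with rfl | rfl <;> simp [sgn_zero, sgn_one]

lemma abs_sgn (a : ZMod 2) : |sgn a| = 1 := by
  rcases zmod2_cases a with rfl | rfl <;> simp [sgn_zero, sgn_one]

variable {I : Type*} [Fintype I] [DecidableEq I]

/-- the characters of `(Z/2)^I` -/
def chr (h ω : I → ZMod 2) : ℝ := ∏ i, sgn (h i * ω i)

lemma chr_mul (h h' ω : I → ZMod 2) : chr h ω * chr h' ω = chr (h + h') ω := by
  unfold chr
  rw [← Finset.prod_mul_distrib]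
  refine Finset.prod_congr rfl fun i _ => ?_
  rw [← sgn_add, Pi.add_apply, add_mul]

lemma chr_add_right (h ω ω' : I → ZMod 2) : chr h (ω + ω') = chr h ω * chr h ω' := by
  unfold chr
  rw [← Finset.prod_mul_distrib]
  refine Finset.prod_congr rfl fun i _ => ?_
  rw [← sgn_add, Pi.add_apply, mul_add]

lemma sum_chr (k : I → ZMod 2) :
    ∑ ω : I → ZMod 2, chr k ω = if k = 0 then (2 : ℝ) ^ Fintype.card I else 0 := by
  have h1 : ∑ ω : I → ZMod 2, chr k ω = ∏ i, ∑ a : ZMod 2, sgn (k i * a) := by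
    rw [Finset.prod_univ_sum, Fintype.piFinset_univ]
    rfl
  have h2 : ∀ i, ∑ a : ZMod 2, sgn (k i * a) = if k i = 0 then (2 : ℝ) else 0 := by
    intro i
    have : (Finset.univ : Finset (ZMod 2)) = {0, 1} := by decide
    rw [this, Finset.sum_pair (by decide)]
    rcases zmod2_cases (k i) with h | h <;> rw [h]
    · simp [sgn_zero]; norm_num
    · simp [sgn_zero, sgn_one]
  rw [h1]
  simp_rw [h2]
  split_ifs with hk
  · subst hk
    simp
  · have : ∃ i, k i ≠ 0 := by
      by_contra hcon
      push Not at hcon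
      exact hk (funext hcon)
    obtain ⟨i, hi⟩ := this
    exact Finset.prod_eq_zero (Finset.mem_univ i) (by simp [hi])

/-- the Fourier transform -/
def four (g : (I → ZMod 2) → ℝ) (ω : I → ZMod 2) : ℝ := ∑ h, g h * chr h ω

lemma four_sub (g g' : (I → ZMod 2) → ℝ) (ω : I → ZMod 2) :
    four (fun h => g h - g' h) ω = four g ω - four g' ω := by
  unfold four
  rw [← Finset.sum_sub_distrib]
  refine Finset.sum_congr rfl fun h _ => by ring

lemma add_eq_zero_iff' (h h' : I → ZMod 2) : h + h' = 0 ↔ h' = h := by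
  constructor
  · intro H
    funext i
    have := congrFun H i
    simp only [Pi.add_apply, Pi.zero_apply] at this
    rcases zmod2_cases (h i) with a | a <;> rcases zmod2_cases (h' i) with b | b <;>
      rw [a, b] at this ⊢ <;> revert this <;> decide
  · rintro rfl
    funext i
    simp only [Pi.add_apply, Pi.zero_apply]
    rcases zmod2_cases (h' i) with a | a <;> rw [a] <;> decide

lemma parseval (g : (I → ZMod 2) → ℝ) :
    ∑ ω, (four g ω) ^ 2 = (2 : ℝ) ^ Fintype.card I * ∑ h, (g h) ^ 2 := by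
  have h1 : ∀ ω, (four g ω) ^ 2 = ∑ h, ∑ h', g h * g h' * chr (h + h') ω := by
    intro ω
    rw [sq]
    unfold four
    rw [Finset.sum_mul_sum]
    refine Finset.sum_congr rfl fun h _ => Finset.sum_congr rfl fun h' _ => ?_
    rw [← chr_mul]; ring
  simp_rw [h1]
  rw [Finset.sum_comm]
  have h2 : ∀ h : I → ZMod 2, ∑ ω, ∑ h', g h * g h' * chr (h + h') ω
      = (2 : ℝ) ^ Fintype.card I * (g h) ^ 2 := by
    intro h
    rw [Finset.sum_comm]
    have h3 : ∀ h' : I → ZMod 2, ∑ ω, g h * g h' * chr (h + h') ω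
        = if h' = h then (2 : ℝ) ^ Fintype.card I * (g h * g h') else 0 := by
      intro h'
      rw [← Finset.mul_sum, sum_chr]
      by_cases hh : h' = h
      · rw [if_pos ((add_eq_zero_iff' h h').2 hh), if_pos hh]; ring
      · rw [if_neg (fun H => hh ((add_eq_zero_iff' h h').1 H)), if_neg hh]; ring
    simp_rw [h3]
    rw [Finset.sum_ite_eq' Finset.univ h]
    simp [sq]
  simp_rw [h2]
  rw [← Finset.mul_sum]

/-- permutation equivariance -/
lemma four_perm (g : (I → ZMod 2) → ℝ) (σ : Equiv.Perm I) (ω : I → ZMod 2) :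
    four (fun h => g (h ∘ σ)) ω = four g (ω ∘ σ) := by
  unfold four
  refine Fintype.sum_equiv (Equiv.arrowCongr σ.symm (Equiv.refl _)) _ _ fun h => ?_
  have e1 : (Equiv.arrowCongr σ.symm (Equiv.refl (ZMod 2))) h = h ∘ σ := by
    funext i; simp [Equiv.arrowCongr]
  rw [e1]
  congr 1
  unfold chr
  exact (Equiv.prod_comp σ (fun i => sgn (h i * ω i))).symm

/-- translation -/
lemma four_add (g : (I → ZMod 2) → ℝ) (k : I → ZMod 2) (ω : I → ZMod 2) :
    four (fun h => g (k + h)) ω = chr k ω * four g ω := by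
  unfold four
  rw [Finset.mul_sum]
  refine Fintype.sum_equiv (Equiv.addLeft k) _ _ fun h => ?_
  simp only [Equiv.coe_addLeft]
  have : chr k ω * chr (k + h) ω = chr h ω := by
    rw [chr_mul]
    congr 1
    funext i
    simp only [Pi.add_apply]
    rcases zmod2_cases (k i) with a | a <;> rcases zmod2_cases (h i) with b | b <;>
      rw [a, b] <;> decide
  rw [show chr k ω * (g (k + h) * chr (k + h) ω) = g (k + h) * (chr k ω * chr (k + h) ω) by ring,
    this]

lemma chr_single (x : I) (ω : I → ZMod 2) : chr (Pi.single x 1) ω = sgn (ω x) := by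
  unfold chr
  rw [Finset.prod_eq_single x]
  · simp
  · intro i _ hi
    simp [Pi.single_eq_of_ne hi, sgn_zero]
  · simp

end Pool.Agent.Helper41.Wob
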