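import Pool.Agent.Helper41.Wob7

set_option autoImplicit false

namespace Pool.Agent.Helper41.Wob

open Finset

variable {X : Type*}

open Classical in
/-- product vector with angles `θ` on the finite set `B` -/
noncomputable def pf (θ : X → ℝ) (B : Finset X) (h : X →₀ ZMod 2) : ℝ :=
  if h.support ⊆ B then ∏ x ∈ B, (if h x = 0 then Real.cos (θ x) else Real.sin (θ x)) else 0

lemma pf_mono (θ : X → ℝ) (B B' : Finset X) (hB : B ⊆ B') (hθ : ∀ x, x ∉ B → θ x = 0)
    (h : X →₀ ZMod 2) : pf θ B h = pf θ B' h := by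
  classical
  unfold pf
  by_cases h1 : h.support ⊆ B
  · rw [if_pos h1, if_pos (h1.trans hB)]
    refine Finset.prod_subset hB fun x _ hx => ?_
    have : h x = 0 := Finsupp.notMem_support_iff.1 (fun H => hx (h1 H))
    rw [if_pos this, hθ x hx, Real.cos_zero]
  · rw [if_neg h1]
    by_cases h2 : h.support ⊆ B'
    · rw [if_pos h2]
      obtain ⟨x, hx1, hx2⟩ := Finset.not_subset.1 h1
      symm
      refine Finset.prod_eq_zero (h2 hx1) ?_
      rw [if_neg (Finsupp.mem_support_iff.1 hx1), hθ x hx2, Real.sin_zero]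
    · rw [if_neg h2]

lemma pf_ext (θ : X → ℝ) (B : Finset X) (a : ↥B → ZMod 2) :
    pf θ B (ext B a) = ∏ i : ↥B, (if a i = 0 then Real.cos (θ i.1) else Real.sin (θ i.1)) := by
  classical
  have h1 : (ext B a).support ⊆ B := by
    intro x hx
    by_contra hn
    exact (Finsupp.mem_support_iff.1 hx) (ext_not_mem B a x hn)
  unfold pf
  rw [if_pos h1, ← Finset.prod_attach B]
  refine Finset.prod_congr rfl fun i _ => ?_
  rw [ext_mem B a i.1 i.2]

lemma pf_off (θ : X → ℝ) (B : Finset X) (h : X →₀ ZMod 2) (hh : ¬ h.support ⊆ B) :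
    pf θ B h = 0 := by
  unfold pf; rw [if_neg hh]

/-- sums over configurations of functions supported in `B` -/
lemma hasSum_ext (B : Finset X) [DecidableEq ↥B] (Φ : (X →₀ ZMod 2) → ℝ)
    (h0 : ∀ h : X →₀ ZMod 2, ¬ h.support ⊆ B → Φ h = 0) :
    HasSum Φ (∑ a : ↥B → ZMod 2, Φ (ext B a)) := by
  have h1 : HasSum (fun a : ↥B → ZMod 2 => Φ (ext B a)) (∑ a : ↥B → ZMod 2, Φ (ext B a)) :=
    hasSum_fintype _
  refine ((ext_inj B).hasSum_iff ?_).1 h1
  intro h hh
  refine h0 h fun hs => hh ⟨fun i => h i.1, ext_range B h hs⟩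

lemma inner_pf (θ θ' : X → ℝ) (B : Finset X) :
    HasSum (fun h => pf θ B h * pf θ' B h) (∏ x ∈ B, Real.cos (θ x - θ' x)) := by
  classical
  have h1 := hasSum_ext B (fun h => pf θ B h * pf θ' B h) (by
    intro h hh; rw [pf_off θ B h hh, zero_mul])
  convert h1 using 1
  simp_rw [pf_ext]
  simp_rw [← Finset.prod_mul_distrib]
  have h2 : ∀ i : ↥B, ∑ b : ZMod 2, ((if b = 0 then Real.cos (θ i.1) else Real.sin (θ i.1)) *
      (if b = 0 then Real.cos (θ' i.1) else Real.sin (θ' i.1))) = Real.cos (θ i.1 - θ' i.1) := by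
    intro i
    have : (Finset.univ : Finset (ZMod 2)) = {0, 1} := by decide
    rw [this, Finset.sum_pair (by decide), if_pos rfl, if_pos rfl,
      if_neg (by decide), if_neg (by decide), Real.cos_sub]
  rw [← Finset.prod_attach B]
  have h3 : ∏ i ∈ B.attach, Real.cos (θ i.1 - θ' i.1)
      = ∏ i : ↥B, ∑ b : ZMod 2, ((if b = 0 then Real.cos (θ i.1) else Real.sin (θ i.1)) *
      (if b = 0 then Real.cos (θ' i.1) else Real.sin (θ' i.1))) := by
    refine Finset.prod_congr rfl fun i _ => (h2 i).symm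
  rw [h3, Finset.prod_univ_sum, Fintype.piFinset_univ]

lemma pf_sq (θ : X → ℝ) (B : Finset X) : HasSum (fun h => pf θ B h ^ 2) 1 := by
  have := inner_pf θ θ B
  simp only [sub_self, Real.cos_zero, Finset.prod_const_one] at this
  simpa only [sq] using this

lemma prod_cos_ge {ι : Type*} (s : Finset ι) (a : ι → ℝ) (ha : ∀ i ∈ s, |a i| ≤ 1) :
    1 - (1 / 2) * ∑ i ∈ s, a i ^ 2 ≤ ∏ i ∈ s, Real.cos (a i) := by
  classical
  have hpos : ∀ s : Finset ι, (∀ i ∈ s, |a i| ≤ 1) → 0 ≤ ∏ i ∈ s, Real.cos (a i) ∧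
      ∏ i ∈ s, Real.cos (a i) ≤ 1 := by
    intro s hs
    have h0 : ∀ i ∈ s, 0 ≤ Real.cos (a i) := by
      intro i hi
      exact (Real.cos_pos_of_le_one (hs i hi)).le
    exact ⟨Finset.prod_nonneg h0, Finset.prod_le_one h0 fun i _ => Real.cos_le_one _⟩
  induction s using Finset.induction_on with
  | empty => simp
  | insert i s hi ih =>
    rw [Finset.sum_insert hi, Finset.prod_insert hi]
    have h1 := ih fun j hj => ha j (Finset.mem_insert_of_mem hj)
    obtain ⟨h2, h3⟩ := hpos s fun j hj => ha j (Finset.mem_insert_of_mem hj)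
    have h4 : 1 - a i ^ 2 / 2 ≤ Real.cos (a i) := Real.one_sub_sq_div_two_le_cos
    have h5 : Real.cos (a i) ≤ 1 := Real.cos_le_one _
    have h6 : 0 ≤ Real.cos (a i) := (Real.cos_pos_of_le_one (ha i (Finset.mem_insert_self _ _))).le
    nlinarith [sq_nonneg (a i)]

lemma pf_dist (θ θ' : X → ℝ) (B : Finset X) (ha : ∀ x, |θ x - θ' x| ≤ 1) :
    ∑' h, (pf θ B h - pf θ' B h) ^ 2 ≤ ∑ x ∈ B, (θ x - θ' x) ^ 2 := by
  have h1 : HasSum (fun h => (pf θ B h - pf θ' B h) ^ 2)
      (1 + 1 - 2 * ∏ x ∈ B, Real.cos (θ x - θ' x)) := by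
    have := ((pf_sq θ B).add (pf_sq θ' B)).sub ((inner_pf θ θ' B).mul_left 2)
    have e : (fun h => (pf θ B h - pf θ' B h) ^ 2) = fun h =>
        (pf θ B h ^ 2 + pf θ' B h ^ 2) - 2 * (pf θ B h * pf θ' B h) := by
      funext h; ring
    rw [e]; exact this
  rw [h1.tsum_eq]
  have := prod_cos_ge B (fun x => θ x - θ' x) fun x _ => ha x
  linarith

open Classical in
lemma pf_perm (θ : X → ℝ) (B : Finset X) (σ : Equiv.Perm X) (h : X →₀ ZMod 2) :
    pf θ B (cperm σ h) = pf (fun x => θ (σ x)) (B.image σ.symm) h := by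
  have hs : (cperm σ h).support ⊆ B ↔ h.support ⊆ B.image σ.symm := by
    constructor
    · intro H x hx
      rw [Finset.mem_image]
      refine ⟨σ x, H ?_, by simp⟩
      rw [Finsupp.mem_support_iff, cperm_apply, Finsupp.equivMapDomain_apply]
      simpa using hx
    · intro H x hx
      rw [Finsupp.mem_support_iff, cperm_apply, Finsupp.equivMapDomain_apply] at hx
      have := H (Finsupp.mem_support_iff.2 hx)
      rw [Finset.mem_image] at this
      obtain ⟨y, hy, hxy⟩ := this
      rwa [← σ.symm.injective hxy]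
  unfold pf
  by_cases h1 : (cperm σ h).support ⊆ B
  · rw [if_pos h1, if_pos (hs.1 h1), Finset.prod_image fun x _ y _ H => σ.symm.injective H]
    refine Finset.prod_congr rfl fun x _ => ?_
    simp only [cperm_apply, Finsupp.equivMapDomain_apply, Equiv.apply_symm_apply]
    congr
  · rw [if_neg h1, if_neg (fun H => h1 (hs.2 H))]

lemma pf_transl (θ : X → ℝ) (B : Finset X) (t : X →₀ ZMod 2) (ht : t.support ⊆ B)
    (h : X →₀ ZMod 2) :
    pf θ B (t + h) = pf (fun x => if t x = 0 then θ x else Real.pi / 2 - θ x) B h := by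
  classical
  have hs : (t + h).support ⊆ B ↔ h.support ⊆ B := by
    constructor
    · intro H x hx
      by_cases hx' : x ∈ t.support
      · exact ht hx'
      · apply H
        rw [Finsupp.mem_support_iff, Finsupp.add_apply, Finsupp.notMem_support_iff.1 hx', zero_add]
        exact Finsupp.mem_support_iff.1 hx
    · intro H x hx
      have := Finsupp.support_add hx
      rcases Finset.mem_union.1 this with h1 | h1
      · exact ht h1
      · exact H h1
  unfold pf
  by_cases h1 : (t + h).support ⊆ B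
  · rw [if_pos h1, if_pos (hs.1 h1)]
    refine Finset.prod_congr rfl fun x _ => ?_
    rw [Finsupp.add_apply]
    beta_reduce
    have h11 : (1 : ZMod 2) + 1 = 0 := by decide
    have h10 : (1 : ZMod 2) + 0 = 1 := by decide
    have h1n : (1 : ZMod 2) ≠ 0 := by decide
    rcases zmod2_cases (t x) with a | a <;> rcases zmod2_cases (h x) with b | b
    · simp [a, b]
    · simp [a, b]
    · simp [a, b, Real.cos_pi_div_two_sub]
    · simp [a, b, h11, Real.sin_pi_div_two_sub]
  · rw [if_neg h1, if_neg (fun H => h1 (hs.2 H))]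

/-- defect of the product vector under a permutation -/
lemma pf_defect_perm (θ : X → ℝ) (B B' : Finset X) (hθ : ∀ x, x ∉ B → θ x = 0) (hB : B ⊆ B')
    (h01 : ∀ x, 0 ≤ θ x ∧ θ x ≤ 1) (σ : Equiv.Perm X) (hB' : ∀ x, x ∉ B' → σ x ∉ B) :
    Dd (pf θ B) (cperm σ) ≤ ∑ x ∈ B', (θ (σ x) - θ x) ^ 2 := by
  classical
  have h1 : ∀ h, pf θ B (cperm σ h) = pf (fun x => θ (σ x)) B' h := by
    intro h
    rw [pf_perm]
    refine pf_mono _ _ _ ?_ ?_ h
    · intro x hx
      rw [Finset.mem_image] at hx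
      obtain ⟨y, hy, rfl⟩ := hx
      by_contra hn
      exact hB' _ hn (by simpa using hy)
    · intro x hx
      refine hθ _ fun H => hx ?_
      rw [Finset.mem_image]
      exact ⟨σ x, H, by simp⟩
  have h2 : ∀ h, pf θ B h = pf θ B' h := pf_mono θ B B' hB hθ
  unfold Dd
  simp_rw [h1]
  have h3 : (fun h => (pf (fun x => θ (σ x)) B' h - pf θ B h) ^ 2)
      = fun h => (pf (fun x => θ (σ x)) B' h - pf θ B' h) ^ 2 := by
    funext h; rw [h2]
  rw [h3]
  refine pf_dist _ _ B' fun x => ?_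
  rw [abs_le]
  have a := h01 x
  have b := h01 (σ x)
  constructor <;> linarith

/-- defect of the product vector under a translation -/
lemma pf_defect_transl (θ : X → ℝ) (B : Finset X) (t : X →₀ ZMod 2) (ht : t.support ⊆ B)
    (ht2 : ∀ x ∈ t.support, |Real.pi / 2 - 2 * θ x| ≤ 1) :
    Dd (pf θ B) (fun h => t + h) ≤ ∑ x ∈ t.support, (Real.pi / 2 - 2 * θ x) ^ 2 := by
  classical
  unfold Dd
  simp_rw [pf_transl θ B t ht]
  refine (pf_dist _ _ B fun x => ?_).trans (le_of_eq ?_)
  · by_cases hx : t x = 0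
    · simp only [hx, if_true, sub_self, abs_zero]; norm_num
    · simp only [hx, if_false]
      have := ht2 x (Finsupp.mem_support_iff.2 hx)
      rwa [show Real.pi / 2 - θ x - θ x = Real.pi / 2 - 2 * θ x by ring]
  · have e : ∀ x ∈ t.support, (Real.pi / 2 - 2 * θ x) ^ 2
        = ((if t x = 0 then θ x else Real.pi / 2 - θ x) - θ x) ^ 2 := by
      intro x hx
      rw [if_neg (Finsupp.mem_support_iff.1 hx)]; ring
    rw [Finset.sum_congr rfl e]
    symm
    refine Finset.sum_subset ht fun x _ hx => ?_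
    rw [if_pos (Finsupp.notMem_support_iff.1 hx), sub_self]; norm_num

end Pool.Agent.Helper41.Wob
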