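import Pool.Agent.Helper41.Wob6

set_option autoImplicit false

namespace Pool.Agent.Helper41.Wob

open Finset Filter Topology

variable {X : Type*} {G : SimpleGraph X} [G.LocallyFinite]

/-- local energy -/
noncomputable def en (G : SimpleGraph X) [G.LocallyFinite] (v : X → ℝ) (x : X) : ℝ :=
  ∑ y ∈ G.neighborFinset x, (v x - v y) ^ 2

lemma en_nonneg (v : X → ℝ) (x : X) : 0 ≤ en G v x := Finset.sum_nonneg fun _ _ => sq_nonneg _

/-- total energy as a finite quantity -/
lemma en_total (D : ℕ) (hD : ∀ x, G.degree x ≤ D) (v : X → ℝ) (B0 : Finset X) (x0 : X)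
    (hv0 : ∀ x, x ∉ B0 → v x = 0)
    (hharm : ∀ x ∈ B0, x ≠ x0 → ∑ y ∈ G.neighborFinset x, (v x - v y) = 0)
    (hx0 : x0 ∈ B0) :
    HasSum (en G v) (2 * (v x0 * ∑ y ∈ G.neighborFinset x0, (v x0 - v y))) := by
  classical
  obtain ⟨K, τ, o, hτ, hadj, -, hsum⟩ := exists_tau (G := G) D hD
  -- finite supports
  have hfin : ∀ s, (Function.support fun x => v x * (v x - v (τ s x))).Finite := by
    intro s
    refine B0.finite_toSet.subset fun x hx => ?_
    by_contra hn
    exact hx (by simp only; rw [hv0 x hn, zero_mul])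
  have h1 : ∀ s, HasSum (fun x => v x * (v x - v (τ s x)))
      (∑ x ∈ B0, v x * (v x - v (τ s x))) := fun s =>
    hasSum_sum_of_ne_finset_zero fun x hx => by rw [hv0 x hx, zero_mul]
  have h2 : ∀ s, HasSum (fun x => (v x - v (τ s x)) ^ 2)
      (2 * ∑ x ∈ B0, v x * (v x - v (τ s x))) := by
    intro s
    set e : Equiv.Perm X := ⟨τ s, τ s, hτ s, hτ s⟩ with he
    have h3 : HasSum (fun x => v (τ s x) * (v (τ s x) - v (τ s (τ s x))))
        (∑ x ∈ B0, v x * (v x - v (τ s x))) :=
      (e.hasSum_iff (f := fun x => v x * (v x - v (τ s x)))).2 (h1 s)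
    have h4 := (h1 s).add h3
    have h5 : (fun x => (v x - v (τ s x)) ^ 2) = fun x => v x * (v x - v (τ s x)) +
        v (τ s x) * (v (τ s x) - v (τ s (τ s x))) := by
      funext x; rw [hτ]; ring
    rw [h5, two_mul]; exact h4
  have h6 : HasSum (fun x => ∑ s, (v x - v (τ s x)) ^ 2)
      (∑ s, 2 * ∑ x ∈ B0, v x * (v x - v (τ s x))) := hasSum_sum fun s _ => h2 s
  have h7 : ∀ x, ∑ s, (v x - v (τ s x)) ^ 2 = 2 * en G v x := by
    intro x
    rw [hsum x (fun y => (v x - v y) ^ 2) (by simp)]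
    rfl
  simp_rw [h7] at h6
  have h8 : ∑ s, 2 * ∑ x ∈ B0, v x * (v x - v (τ s x))
      = 2 * (2 * (v x0 * ∑ y ∈ G.neighborFinset x0, (v x0 - v y))) := by
    rw [← Finset.mul_sum, Finset.sum_comm]
    congr 1
    simp_rw [← Finset.mul_sum]
    rw [Finset.sum_eq_single_of_mem x0 hx0]
    · rw [hsum x0 (fun y => v x0 - v y) (sub_self _)]; ring
    · intro x hx hne
      rw [hsum x (fun y => v x - v y) (sub_self _), hharm x hx hne]; ring
  rw [h8] at h6
  have h9 := h6.mul_left (1 / 2)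
  have e1 : (fun i => 1 / 2 * (2 * en G v i)) = en G v := by funext i; ring
  have e2 : 1 / 2 * (2 * (2 * (v x0 * ∑ y ∈ G.neighborFinset x0, (v x0 - v y))))
      = 2 * (v x0 * ∑ y ∈ G.neighborFinset x0, (v x0 - v y)) := by ring
  rw [e1, e2] at h9
  exact h9

lemma path_sq (v : X → ℝ) {x y : X} (p : G.Walk x y) (R : ℕ) (hR : p.length ≤ R) :
    (v y - v x) ^ 2 ≤ R * ∑ j ∈ Finset.range R, en G v (p.getVert j) := by
  have h1 : v y - v x = ∑ j ∈ Finset.range R, (v (p.getVert (j + 1)) - v (p.getVert j)) := by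
    rw [Finset.sum_range_sub (fun j => v (p.getVert j)), p.getVert_of_length_le hR,
      SimpleGraph.Walk.getVert_zero]
  rw [h1]
  have h2 := sq_sum_le_card_mul_sum_sq (s := Finset.range R)
    (f := fun j => v (p.getVert (j + 1)) - v (p.getVert j))
  rw [Finset.card_range] at h2
  refine h2.trans (mul_le_mul_of_nonneg_left (Finset.sum_le_sum fun j _ => ?_) (by positivity))
  by_cases hj : j < p.length
  · have hadj := p.adj_getVert_succ hj
    unfold en
    have := Finset.single_le_sum (f := fun y => (v (p.getVert j) - v y) ^ 2)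
      (fun _ _ => sq_nonneg _) ((SimpleGraph.mem_neighborFinset G (p.getVert j) _).2 hadj)
    refine le_trans (le_of_eq ?_) this
    ring
  · rw [p.getVert_of_length_le (by omega), p.getVert_of_length_le (by omega)]
    simp only [sub_self]
    norm_num
    exact en_nonneg v _

lemma tsum_fiber (γ : X → X) (M : ℕ) (hγ : ∀ y, ∃ S : Finset X, S.card ≤ M ∧ ∀ x, γ x = y → x ∈ S)
    (E : X → ENNReal) : ∑' x, E (γ x) ≤ M * ∑' y, E y := by
  classical
  have h1 : ∀ x, E (γ x) = ∑' y, if γ x = y then E y else 0 := by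
    intro x
    rw [tsum_eq_single (γ x)]
    · rw [if_pos rfl]
    · intro y hy; rw [if_neg (fun H => hy H.symm)]
  simp_rw [h1]
  rw [ENNReal.tsum_comm, ← ENNReal.tsum_mul_left]
  refine ENNReal.tsum_le_tsum fun y => ?_
  obtain ⟨S, hS, hS2⟩ := hγ y
  rw [tsum_eq_sum (s := S)]
  · calc ∑ x ∈ S, (if γ x = y then E y else 0) ≤ ∑ _x ∈ S, E y :=
          Finset.sum_le_sum fun x _ => by split_ifs <;> simp
      _ = S.card * E y := by rw [Finset.sum_const, nsmul_eq_mul]
      _ ≤ M * E y := by gcongr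
  · intro x hx
    rw [if_neg (fun H => hx (hS2 x H))]

lemma disp (hG : G.Connected) (D : ℕ) (hD : ∀ x, G.degree x ≤ D) (v : X → ℝ) (E : ℝ)
    (hE : HasSum (en G v) E) (R : ℕ) (σ : X → X) (hσ : ∀ x, G.dist x (σ x) ≤ R) (B : Finset X) :
    ∑ x ∈ B, (v (σ x) - v x) ^ 2 ≤ R * (R * ((D + 1) ^ R * E)) := by
  classical
  have hE0 : 0 ≤ E := hE.nonneg (en_nonneg v)
  choose p hp using fun x => hG.exists_walk_length_eq_dist x (σ x)
  have hpR : ∀ x, (p x).length ≤ R := fun x => (hp x).trans_le (hσ x)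
  have h1 : ∀ x, (v (σ x) - v x) ^ 2 ≤ R * ∑ j ∈ Finset.range R, en G v ((p x).getVert j) :=
    fun x => path_sq v (p x) R (hpR x)
  have h2 : ∀ j ∈ Finset.range R, ∑' x, ENNReal.ofReal (en G v ((p x).getVert j))
      ≤ ((D + 1) ^ R : ℕ) * ENNReal.ofReal E := by
    intro j hj
    have h3 : ∑' y, ENNReal.ofReal (en G v y) = ENNReal.ofReal E := by
      rw [← hE.tsum_eq, ENNReal.ofReal_tsum_of_nonneg (en_nonneg v) hE.summable]
    rw [← h3]
    refine tsum_fiber (fun x => (p x).getVert j) _ (fun y => ?_) (fun y => ENNReal.ofReal (en G v y))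
    refine ⟨ballF G R y, ballF_card D hD R y, fun x hx => ?_⟩
    subst hx
    refine ballF_walk ((p x).take j).reverse R ?_
    rw [SimpleGraph.Walk.length_reverse, SimpleGraph.Walk.take_length]
    rw [Finset.mem_range] at hj
    omega
  have h4 : ENNReal.ofReal (∑ x ∈ B, (v (σ x) - v x) ^ 2)
      ≤ ENNReal.ofReal (R * (R * ((D + 1) ^ R * E))) := by
    rw [ENNReal.ofReal_sum_of_nonneg (fun _ _ => sq_nonneg _)]
    calc ∑ x ∈ B, ENNReal.ofReal ((v (σ x) - v x) ^ 2)
        ≤ ∑' x, ENNReal.ofReal ((v (σ x) - v x) ^ 2) := ENNReal.sum_le_tsum B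
      _ ≤ ∑' x, (R : ENNReal) * ∑ j ∈ Finset.range R, ENNReal.ofReal (en G v ((p x).getVert j)) := by
          refine ENNReal.tsum_le_tsum fun x => ?_
          rw [← ENNReal.ofReal_sum_of_nonneg (fun _ _ => en_nonneg v _), ← ENNReal.ofReal_natCast,
            ← ENNReal.ofReal_mul (by positivity)]
          exact ENNReal.ofReal_le_ofReal (h1 x)
      _ = R * ∑ j ∈ Finset.range R, ∑' x, ENNReal.ofReal (en G v ((p x).getVert j)) := by
          rw [ENNReal.tsum_mul_left]
          congr 1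
          exact Summable.tsum_finsetSum fun _ _ => ENNReal.summable
      _ ≤ R * ∑ _j ∈ Finset.range R, ((D + 1) ^ R : ℕ) * ENNReal.ofReal E := by
          gcongr with j hj
          exact h2 j hj
      _ = ENNReal.ofReal (R * (R * ((D + 1) ^ R * E))) := by
          rw [Finset.sum_const, Finset.card_range, nsmul_eq_mul,
            ENNReal.ofReal_mul (by positivity), ENNReal.ofReal_mul (by positivity),
            ENNReal.ofReal_mul (by positivity), ENNReal.ofReal_natCast]
          congr 3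
          rw [← ENNReal.ofReal_natCast]
          push_cast
          rfl
  exact (ENNReal.ofReal_le_ofReal_iff (by positivity)).1 h4

lemma point (hG : G.Connected) (v : X → ℝ) (E : ℝ)
    (hE : HasSum (en G v) E) (x y : X) :
    (v y - v x) ^ 2 ≤ (G.dist x y) * ((G.dist x y) * E) := by
  obtain ⟨p, hp⟩ := hG.exists_walk_length_eq_dist x y
  have h1 := path_sq v p (G.dist x y) hp.le
  refine h1.trans (mul_le_mul_of_nonneg_left ?_ (by positivity))
  calc ∑ j ∈ Finset.range (G.dist x y), en G v (p.getVert j)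
      ≤ ∑ _j ∈ Finset.range (G.dist x y), E :=
        Finset.sum_le_sum fun j _ => le_hasSum hE _ (fun _ _ => en_nonneg v _)
    _ = _ := by rw [Finset.sum_const, Finset.card_range, nsmul_eq_mul]

end Pool.Agent.Helper41.Wob
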