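import Pool.Agent.Helper41.Wob10
import Pool.Agent.Helper41.Wob11

set_option autoImplicit false

namespace Pool.Agent.Helper41.Wob

open Finset Filter Topology

lemma l1_of_Dd {C : Type*} (f : C → ℝ) (hf : HasSum (fun h => f h ^ 2) 1) (e : Equiv.Perm C)
    (ε : ℝ) (hε : 0 < ε) (h : Dd f e ≤ ε ^ 2 / 4) :
    ∑' h, |f (e h) ^ 2 - f h ^ 2| ≤ ε := by
  have hs := hf.summable
  have h1 : Summable fun h => (f (e h) - f h) ^ 2 := summ_diff f hs e
  have hse : HasSum (fun h => f (e h) ^ 2) 1 := (e.hasSum_iff (f := fun h => f h ^ 2)).2 hf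
  have h2 : HasSum (fun h => 2 * f (e h) ^ 2 + 2 * f h ^ 2) (2 * 1 + 2 * 1) :=
    (hse.mul_left 2).add (hf.mul_left 2)
  have h3 : ∀ h, |f (e h) ^ 2 - f h ^ 2| ≤ (2 / ε) * (f (e h) - f h) ^ 2 +
      (ε / 8) * (2 * f (e h) ^ 2 + 2 * f h ^ 2) := by
    intro h
    have h4 : |f (e h) ^ 2 - f h ^ 2| ≤ (2 / ε) * (f (e h) - f h) ^ 2 +
        (ε / 8) * (f (e h) + f h) ^ 2 := by
      have e1 : f (e h) ^ 2 - f h ^ 2 = (f (e h) - f h) * (f (e h) + f h) := by ring
      rw [e1, abs_le]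
      set a := f (e h) - f h
      set b := f (e h) + f h
      have k1 : 0 ≤ (ε / 8) * (b + (4 / ε) * a) ^ 2 := by positivity
      have k2 : 0 ≤ (ε / 8) * (b - (4 / ε) * a) ^ 2 := by positivity
      have k3 : (ε / 8) * (b + (4 / ε) * a) ^ 2 = (2 / ε) * a ^ 2 + (ε / 8) * b ^ 2 + a * b := by
        field_simp; ring
      have k4 : (ε / 8) * (b - (4 / ε) * a) ^ 2 = (2 / ε) * a ^ 2 + (ε / 8) * b ^ 2 - a * b := by
        field_simp; ring
      constructor <;> linarith
    refine h4.trans (add_le_add_right ?_ _ |>.trans le_rfl)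
    refine mul_le_mul_of_nonneg_left ?_ (by positivity)
    nlinarith [sq_nonneg (f (e h) - f h)]
  have h5 : Summable fun h => (2 / ε) * (f (e h) - f h) ^ 2 +
      (ε / 8) * (2 * f (e h) ^ 2 + 2 * f h ^ 2) := (h1.mul_left _).add (h2.summable.mul_left _)
  have h6 : Summable fun h => |f (e h) ^ 2 - f h ^ 2| := (hse.summable.sub hs).abs
  calc ∑' h, |f (e h) ^ 2 - f h ^ 2| ≤ ∑' h, ((2 / ε) * (f (e h) - f h) ^ 2 +
      (ε / 8) * (2 * f (e h) ^ 2 + 2 * f h ^ 2)) := Summable.tsum_le_tsum h3 h6 h5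
    _ = (2 / ε) * Dd f e + (ε / 8) * (2 * 1 + 2 * 1) := by
        rw [Summable.tsum_add (h1.mul_left _) (h2.summable.mul_left _), tsum_mul_left,
          tsum_mul_left, h2.tsum_eq]
        rfl
    _ ≤ (2 / ε) * (ε ^ 2 / 4) + (ε / 8) * (2 * 1 + 2 * 1) := by
        have : (2 / ε) * Dd f e ≤ (2 / ε) * (ε ^ 2 / 4) :=
          mul_le_mul_of_nonneg_left h (by positivity)
        linarith
    _ = ε := by field_simp; ring

variable {X : Type*} {G : SimpleGraph X} [G.LocallyFinite]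

lemma small_energy (x0 : X) (hrec : ∀ z ∈ G.neighborFinset x0, hitv G x0 Set.univ z = 1)
    (ε : ℝ) (hε : 0 < ε) :
    ∃ B0 : Finset X, x0 ∈ B0 ∧
      ∑ z ∈ G.neighborFinset x0, (1 - hitv G x0 (↑B0 : Set X) z) ≤ ε := by
  classical
  have h1 : Tendsto (fun n => ∑ z ∈ G.neighborFinset x0, (1 - hitp G x0 Set.univ n z)) atTop
      (𝓝 (∑ z ∈ G.neighborFinset x0, (1 - hitv G x0 Set.univ z))) :=
    tendsto_finsetSum _ fun z _ => (hitp_tendsto x0 Set.univ z).const_sub 1
  have h2 : ∑ z ∈ G.neighborFinset x0, (1 - hitv G x0 Set.univ z) = 0 :=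
    Finset.sum_eq_zero fun z hz => by rw [hrec z hz, sub_self]
  rw [h2] at h1
  obtain ⟨n, hn⟩ := (h1.eventually (ge_mem_nhds hε)).exists
  refine ⟨ballF G (n + 1) x0, ballF_self _ _, ?_⟩
  refine le_trans (Finset.sum_le_sum fun z hz => ?_) hn
  have h3 : hitp G x0 (↑(ballF G (n + 1) x0) : Set X) n z = hitp G x0 Set.univ n z := by
    refine hitp_ball x0 _ n z ?_
    intro y hy
    rw [Finset.mem_coe] at hy ⊢
    rw [ballF, Finset.mem_insert, Finset.mem_biUnion]
    exact Or.inr ⟨z, hz, hy⟩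
  have h4 := hitp_le_hitv (G := G) x0 (↑(ballF G (n + 1) x0) : Set X) n z
  linarith

theorem uniform_of_rec (hG : G.Connected) (D : ℕ) (hD : ∀ x, G.degree x ≤ D) (x0 : X)
    (hrec : ∀ z ∈ G.neighborFinset x0, hitv G x0 Set.univ z = 1)
    (R : ℕ) (T : Finset (X →₀ ZMod 2)) (ε : ℝ) (hε : 0 < ε) :
    ∃ φ : (X →₀ ZMod 2) → ℝ, (∀ h, 0 ≤ φ h) ∧ HasSum φ 1 ∧ (Function.support φ).Finite ∧
      (∀ t ∈ T, ∑' h, |φ (t + h) - φ h| ≤ ε) ∧
      ∀ σ : Equiv.Perm X, (∀ x, G.dist x (σ x) ≤ R) →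
        ∑' h, |φ (Finsupp.equivMapDomain σ h) - φ h| ≤ ε := by
  classical
  set CT : ℝ := ∑ t ∈ T, ∑ x ∈ t.support, ((G.dist x0 x : ℝ) * (G.dist x0 x : ℝ)) with hCT
  have hCT0 : 0 ≤ CT := Finset.sum_nonneg fun _ _ => Finset.sum_nonneg fun _ _ => by positivity
  set A : ℝ := R * (R * ((D + 1) ^ R * 2)) + 8 * CT + 1 with hA
  have hA1 : 1 ≤ A := by
    have : (0 : ℝ) ≤ R * (R * ((D + 1) ^ R * 2)) := by positivity
    linarith
  have hA0 : 0 < A := by linarith
  set δ : ℝ := min (ε ^ 2 / 4) 1 with hδ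
  have hδ0 : 0 < δ := lt_min (by positivity) one_pos
  obtain ⟨B0, hx0, hκ⟩ := small_energy x0 hrec (δ / A) (by positivity)
  set v : X → ℝ := hitv G x0 (↑B0 : Set X) with hv
  set κ : ℝ := ∑ z ∈ G.neighborFinset x0, (1 - v z) with hκdef
  have hκ0 : 0 ≤ κ := Finset.sum_nonneg fun z _ => sub_nonneg.2 (hitv_le_one _ _ _)
  have hAκ : A * κ ≤ δ := by
    have := mul_le_mul_of_nonneg_left hκ hA0.le
    rwa [mul_div_cancel₀ _ hA0.ne'] at this
  have hvoff : ∀ x, x ∉ B0 → v x = 0 := fun x hx =>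
    hitv_off x0 _ x (fun h => hx (h ▸ hx0)) (by exact_mod_cast hx)
  have hvroot : v x0 = 1 := hitv_root x0 _
  have hE : HasSum (en G v) (2 * κ) := by
    have := en_total D hD v B0 x0 hvoff
      (fun x hx hne => hitv_harm' x0 _ x hne (by exact_mod_cast hx)) hx0
    rw [hvroot, one_mul] at this
    exact this
  have hv01 : ∀ x, 0 ≤ v x ∧ v x ≤ 1 := fun x => ⟨hitv_nonneg _ _ _, hitv_le_one _ _ _⟩
  have hpi4 : Real.pi / 4 ≤ 1 := by have := Real.pi_le_four; linarith
  have hpi0 : 0 < Real.pi := Real.pi_pos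
  set θ : X → ℝ := fun x => Real.pi / 4 * v x with hθ
  have hθ01 : ∀ x, 0 ≤ θ x ∧ θ x ≤ 1 := by
    intro x
    have := hv01 x
    constructor
    · exact mul_nonneg (by positivity) this.1
    · calc Real.pi / 4 * v x ≤ 1 * 1 := mul_le_mul hpi4 this.2 this.1 zero_le_one
        _ = 1 := one_mul 1
  set B1 : Finset X := B0 ∪ T.biUnion (fun t => t.support) with hB1
  have hθoff : ∀ x, x ∉ B1 → θ x = 0 := by
    intro x hx
    have : x ∉ B0 := fun h => hx (Finset.mem_union_left _ h)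
    simp only [hθ]; rw [hvoff x this, mul_zero]
  have hTB : ∀ t ∈ T, t.support ⊆ B1 := fun t ht =>
    (Finset.subset_biUnion_of_mem (fun t : X →₀ ZMod 2 => t.support) ht).trans
      Finset.subset_union_right
  set f := pf θ B1 with hf
  have hfs : HasSum (fun h => f h ^ 2) 1 := pf_sq θ B1
  refine ⟨fun h => f h ^ 2, fun h => sq_nonneg _, hfs, ?_, ?_, ?_⟩
  · have : (Function.support fun h => f h ^ 2) ⊆ Set.range (ext B1) := by
      intro h hh
      by_contra hn
      apply hh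
      have h2 : ¬ h.support ⊆ B1 := fun hs => hn ⟨fun i => h i.1, ext_range B1 h hs⟩
      simp only [hf]
      rw [pf_off θ B1 h h2]; norm_num
    exact (Set.finite_range _).subset this
  · intro t ht
    refine l1_of_Dd f hfs (Equiv.addLeft t) ε hε ?_
    have hd : ∀ x ∈ t.support, (1 - v x) ^ 2 ≤
        ((G.dist x0 x : ℝ) * (G.dist x0 x : ℝ)) * (2 * κ) := by
      intro x _
      have := point hG v (2 * κ) hE x0 x
      rw [hvroot] at this
      calc (1 - v x) ^ 2 = (v x - 1) ^ 2 := by ring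
        _ ≤ _ := this
        _ = _ := by ring
    have hle : ∀ x ∈ t.support, ((G.dist x0 x : ℝ) * (G.dist x0 x : ℝ)) ≤ CT := by
      intro x hx
      calc ((G.dist x0 x : ℝ) * (G.dist x0 x : ℝ))
          ≤ ∑ x ∈ t.support, ((G.dist x0 x : ℝ) * (G.dist x0 x : ℝ)) :=
            Finset.single_le_sum (f := fun x => ((G.dist x0 x : ℝ) * (G.dist x0 x : ℝ)))
              (fun _ _ => by positivity) hx
        _ ≤ CT := Finset.single_le_sum
              (f := fun t : X →₀ ZMod 2 => ∑ x ∈ t.support, ((G.dist x0 x : ℝ) * (G.dist x0 x : ℝ)))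
              (fun _ _ => Finset.sum_nonneg fun _ _ => by positivity) ht
    have h8 : 8 * CT * κ ≤ δ := by
      refine le_trans ?_ hAκ
      refine mul_le_mul_of_nonneg_right ?_ hκ0
      have : (0 : ℝ) ≤ R * (R * ((D + 1) ^ R * 2)) := by positivity
      linarith
    have h9 : ∀ x ∈ t.support, |Real.pi / 2 - 2 * θ x| ≤ 1 := by
      intro x hx
      have e1 : Real.pi / 2 - 2 * θ x = Real.pi / 2 * (1 - v x) := by simp only [hθ]; ring
      have e2 : (1 - v x) ^ 2 ≤ (1 / 2) ^ 2 := by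
        calc (1 - v x) ^ 2 ≤ ((G.dist x0 x : ℝ) * (G.dist x0 x : ℝ)) * (2 * κ) := hd x hx
          _ ≤ CT * (2 * κ) := mul_le_mul_of_nonneg_right (hle x hx) (by positivity)
          _ = (8 * CT * κ) / 4 := by ring
          _ ≤ δ / 4 := by linarith
          _ ≤ 1 / 4 := by have := min_le_right (ε ^ 2 / 4) 1; linarith
          _ = (1 / 2) ^ 2 := by norm_num
      have e3 : 1 - v x ≤ 1 / 2 := by
        have := abs_le_of_sq_le_sq e2 (by norm_num)
        exact (le_abs_self _).trans this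
      have e4 : 0 ≤ 1 - v x := sub_nonneg.2 (hv01 x).2
      rw [e1, abs_of_nonneg (by positivity)]
      calc Real.pi / 2 * (1 - v x) ≤ Real.pi / 2 * (1 / 2) :=
            mul_le_mul_of_nonneg_left e3 (by positivity)
        _ = Real.pi / 4 := by ring
        _ ≤ 1 := hpi4
    have h10 := pf_defect_transl θ B1 t (hTB t ht) h9
    refine le_trans h10 ?_
    calc ∑ x ∈ t.support, (Real.pi / 2 - 2 * θ x) ^ 2
        ≤ ∑ x ∈ t.support, 4 * (((G.dist x0 x : ℝ) * (G.dist x0 x : ℝ)) * (2 * κ)) := by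
          refine Finset.sum_le_sum fun x hx => ?_
          have e1 : (Real.pi / 2 - 2 * θ x) ^ 2 = (Real.pi / 2) ^ 2 * (1 - v x) ^ 2 := by
            simp only [hθ]; ring
          rw [e1]
          have e2 : (Real.pi / 2) ^ 2 ≤ 4 := by
            have : Real.pi / 2 ≤ 2 := by have := Real.pi_le_four; linarith
            calc (Real.pi / 2) ^ 2 ≤ 2 ^ 2 := pow_le_pow_left₀ (by positivity) this 2
              _ = 4 := by norm_num
          exact mul_le_mul e2 (hd x hx) (sq_nonneg _) (by norm_num)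
      _ = 8 * (∑ x ∈ t.support, ((G.dist x0 x : ℝ) * (G.dist x0 x : ℝ))) * κ := by
          have e : ∀ x ∈ t.support, 4 * (((G.dist x0 x : ℝ) * (G.dist x0 x : ℝ)) * (2 * κ))
              = ((G.dist x0 x : ℝ) * (G.dist x0 x : ℝ)) * (8 * κ) := fun x _ => by ring
          rw [Finset.sum_congr rfl e, ← Finset.sum_mul]
          ring
      _ ≤ 8 * CT * κ := by
          refine mul_le_mul_of_nonneg_right ?_ hκ0
          refine mul_le_mul_of_nonneg_left ?_ (by norm_num)
          exact Finset.single_le_sum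
              (f := fun t : X →₀ ZMod 2 => ∑ x ∈ t.support, ((G.dist x0 x : ℝ) * (G.dist x0 x : ℝ)))
              (fun _ _ => Finset.sum_nonneg fun _ _ => by positivity) ht
      _ ≤ δ := h8
      _ ≤ ε ^ 2 / 4 := min_le_left _ _
  · intro σ hσ
    refine l1_of_Dd f hfs (cperm σ) ε hε ?_
    have h1 := pf_defect_perm θ B1 (B1 ∪ B1.image σ.symm) hθoff Finset.subset_union_left hθ01 σ
      (by
        intro x hx hσx
        apply hx
        refine Finset.mem_union_right _ ?_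
        rw [Finset.mem_image]
        exact ⟨σ x, hσx, by simp⟩)
    refine le_trans h1 ?_
    calc ∑ x ∈ B1 ∪ B1.image σ.symm, (θ (σ x) - θ x) ^ 2
        ≤ ∑ x ∈ B1 ∪ B1.image σ.symm, (v (σ x) - v x) ^ 2 := by
          refine Finset.sum_le_sum fun x _ => ?_
          have e1 : (θ (σ x) - θ x) ^ 2 = (Real.pi / 4) ^ 2 * (v (σ x) - v x) ^ 2 := by
            simp only [hθ]; ring
          rw [e1]
          have e2 : (Real.pi / 4) ^ 2 ≤ 1 := pow_le_one₀ (by positivity) hpi4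
          calc (Real.pi / 4) ^ 2 * (v (σ x) - v x) ^ 2 ≤ 1 * (v (σ x) - v x) ^ 2 :=
                mul_le_mul_of_nonneg_right e2 (sq_nonneg _)
            _ = _ := one_mul _
      _ ≤ R * (R * ((D + 1) ^ R * (2 * κ))) := disp hG D hD v (2 * κ) hE R σ hσ _
      _ = (R * (R * ((D + 1) ^ R * 2))) * κ := by ring
      _ ≤ A * κ := by
          refine mul_le_mul_of_nonneg_right ?_ hκ0
          linarith
      _ ≤ δ := hAκ
      _ ≤ ε ^ 2 / 4 := min_le_left _ _

end Pool.Agent.Helper41.Wob
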