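import Pool.Agent.Helper41.Wob1

set_option autoImplicit false

namespace Pool.Agent.Helper41.Wob

open Finset

/-- the partial swap along an involution `τ` driven by `q` -/
def swp {X : Type*} (τ : X → X) (q : X → ZMod 2) (i : X) : X := if q i = q (τ i) then i else τ i

lemma swp_invol {X : Type*} {τ : X → X} (hτ : ∀ i, τ (τ i) = i) (q : X → ZMod 2) (i : X) :
    swp τ q (swp τ q i) = i := by
  unfold swp
  by_cases h : q i = q (τ i)
  · simp [h]
  · rw [if_neg h, hτ, if_neg (fun H => h H.symm)]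

/-- the partial swap as a permutation -/
def swpPerm {X : Type*} (τ : X → X) (hτ : ∀ i, τ (τ i) = i) (q : X → ZMod 2) : Equiv.Perm X :=
  ⟨swp τ q, swp τ q, swp_invol hτ q, swp_invol hτ q⟩

/-- an involution as a permutation -/
def invPerm {X : Type*} (τ : X → X) (hτ : ∀ i, τ (τ i) = i) : Equiv.Perm X := ⟨τ, τ, hτ, hτ⟩

section generic

variable {Ω : Type*} [Fintype Ω]

lemma close_diff (F : Ω → ℝ) (e : Equiv.Perm Ω) (η T : ℝ) (hη : 0 ≤ η) (hT : 0 ≤ T)
    (h : ∑ w, (F (e w) - F w) ^ 2 ≤ η ^ 2 * ∑ w, F w ^ 2) (ψ : Ω → ℝ) (hψ : ∀ w, |ψ w| ≤ T) :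
    |∑ w, (F (e w) ^ 2 - F w ^ 2) * ψ w| ≤ 2 * η * T * ∑ w, F w ^ 2 := by
  set N := ∑ w, F w ^ 2 with hN
  have hN0 : 0 ≤ N := Finset.sum_nonneg fun _ _ => sq_nonneg _
  have h1 : ∑ w, (F (e w) - F w) ^ 2 ≤ η ^ 2 * N := h
  have h2 : ∑ w, (ψ w * (F (e w) + F w)) ^ 2 ≤ T ^ 2 * (4 * N) := by
    have h3 : ∀ w, (ψ w * (F (e w) + F w)) ^ 2 ≤ T ^ 2 * (2 * F (e w) ^ 2 + 2 * F w ^ 2) := by
      intro w
      rw [mul_pow]
      have h4 : ψ w ^ 2 ≤ T ^ 2 := by
        rw [← sq_abs]; exact pow_le_pow_left₀ (abs_nonneg _) (hψ w) 2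
      have h5 : (F (e w) + F w) ^ 2 ≤ 2 * F (e w) ^ 2 + 2 * F w ^ 2 := by
        nlinarith [sq_nonneg (F (e w) - F w)]
      exact mul_le_mul h4 h5 (sq_nonneg _) (sq_nonneg _)
    calc ∑ w, (ψ w * (F (e w) + F w)) ^ 2 ≤ ∑ w, T ^ 2 * (2 * F (e w) ^ 2 + 2 * F w ^ 2) :=
          Finset.sum_le_sum fun w _ => h3 w
      _ = T ^ 2 * (4 * N) := by
          rw [← Finset.mul_sum, Finset.sum_add_distrib, ← Finset.mul_sum, ← Finset.mul_sum,
            Equiv.sum_comp e (fun w => F w ^ 2)]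
          ring
  have h6 : (∑ w, (F (e w) ^ 2 - F w ^ 2) * ψ w) ^ 2 ≤ (2 * η * T * N) ^ 2 := by
    have h7 : ∑ w, (F (e w) ^ 2 - F w ^ 2) * ψ w
        = ∑ w, (F (e w) - F w) * (ψ w * (F (e w) + F w)) := by
      refine Finset.sum_congr rfl fun w _ => by ring
    rw [h7]
    calc (∑ w, (F (e w) - F w) * (ψ w * (F (e w) + F w))) ^ 2
        ≤ (∑ w, (F (e w) - F w) ^ 2) * ∑ w, (ψ w * (F (e w) + F w)) ^ 2 :=
          Finset.sum_mul_sq_le_sq_mul_sq _ _ _
      _ ≤ (η ^ 2 * N) * (T ^ 2 * (4 * N)) :=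
          mul_le_mul h1 h2 (Finset.sum_nonneg fun _ _ => sq_nonneg _) (by positivity)
      _ = (2 * η * T * N) ^ 2 := by ring
  exact abs_le_of_sq_le_sq h6 (by positivity)

lemma close_odd (F : Ω → ℝ) (e : Equiv.Perm Ω) (he : ∀ w, e (e w) = w) (η T : ℝ) (hη : 0 ≤ η)
    (hT : 0 ≤ T)
    (h : ∑ w, (F (e w) - F w) ^ 2 ≤ η ^ 2 * ∑ w, F w ^ 2) (ψ : Ω → ℝ) (hψ : ∀ w, |ψ w| ≤ T)
    (hodd : ∀ w, ψ (e w) = - ψ w) :
    |∑ w, F w ^ 2 * ψ w| ≤ η * T * ∑ w, F w ^ 2 := by
  have h1 := close_diff F e η T hη hT h ψ hψ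
  have h2 : ∑ w, F (e w) ^ 2 * ψ w = - ∑ w, F w ^ 2 * ψ w := by
    rw [← Finset.sum_neg_distrib, ← Equiv.sum_comp e (fun w => -(F w ^ 2 * ψ w))]
    refine Finset.sum_congr rfl fun w _ => ?_
    rw [hodd]; ring
  have h3 : ∑ w, (F (e w) ^ 2 - F w ^ 2) * ψ w = - 2 * ∑ w, F w ^ 2 * ψ w := by
    have : ∑ w, (F (e w) ^ 2 - F w ^ 2) * ψ w
        = ∑ w, F (e w) ^ 2 * ψ w - ∑ w, F w ^ 2 * ψ w := by
      rw [← Finset.sum_sub_distrib]
      refine Finset.sum_congr rfl fun w _ => by ring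
    rw [this, h2]; ring
  rw [h3, abs_mul] at h1
  norm_num at h1
  linarith

end generic

section core

variable {I : Type*} [Fintype I] [DecidableEq I]

/-- the linear statistic attached to a colour -/
noncomputable def Dst (τ : I → I) (u : I → ℝ) (w : I → ZMod 2) : ℝ :=
  (1 / 2) * ∑ i, (u i - u (τ i)) * sgn (w i)

lemma Dst_tau (τ : I → I) (hτ : ∀ i, τ (τ i) = i) (u : I → ℝ) (w : I → ZMod 2) :
    Dst τ u (w ∘ τ) = - Dst τ u w := by
  unfold Dst
  rw [← mul_neg, ← Finset.sum_neg_distrib]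
  congr 1
  rw [← Equiv.sum_comp (invPerm τ hτ) (fun i => -((u i - u (τ i)) * sgn (w i)))]
  refine Finset.sum_congr rfl fun i _ => ?_
  simp only [invPerm, Equiv.coe_fn_mk, Function.comp_apply, hτ]
  ring

lemma Dst_swp (τ : I → I) (hτ : ∀ i, τ (τ i) = i) (u : I → ℝ) (w q : I → ZMod 2) :
    Dst τ u (w ∘ swp τ q) = ∑ i, chr (Pi.single i 1 + Pi.single (τ i) 1) q *
      ((1 / 2) * ((u i - u (τ i)) * sgn (w i))) := by
  unfold Dst
  rw [Finset.mul_sum, ← Equiv.sum_comp (swpPerm τ hτ q)]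
  refine Finset.sum_congr rfl fun i _ => ?_
  rw [← chr_mul, chr_single, chr_single]
  simp only [swpPerm, Equiv.coe_fn_mk, Function.comp_apply, swp_invol hτ]
  by_cases h : q i = q (τ i)
  · have h1 : swp τ q i = i := by simp [swp, h]
    rw [h1, h, sgn_sq]; ring
  · have h1 : swp τ q i = τ i := by simp [swp, h]
    have h2 : sgn (q i) * sgn (q (τ i)) = -1 := by
      rcases zmod2_cases (q i) with a | a <;> rcases zmod2_cases (q (τ i)) with b | b <;>
        rw [a, b] at h ⊢ <;> simp_all [sgn_zero, sgn_one]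
    rw [h1, h2, hτ]; ring

lemma second_moment (τ : I → I) (hτ : ∀ i, τ (τ i) = i) (u : I → ℝ) (w : I → ZMod 2) :
    ∑ q : I → ZMod 2, (Dst τ u (w ∘ swp τ q)) ^ 2
      ≤ (2 : ℝ) ^ Fintype.card I * ((1 / 2) * ∑ i, (u i - u (τ i)) ^ 2) := by
  set b : I → ℝ := fun i => (1 / 2) * ((u i - u (τ i)) * sgn (w i)) with hb
  have hbabs : ∀ i, |b i| = (1 / 2) * |u i - u (τ i)| := by
    intro i
    simp only [hb]
    rw [abs_mul, abs_mul, abs_sgn]; norm_num
  have hbτ : ∀ i, |b (τ i)| = |b i| := by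
    intro i
    rw [hbabs, hbabs, hτ, abs_sub_comm]
  have h1 : ∀ q : I → ZMod 2, (Dst τ u (w ∘ swp τ q)) ^ 2
      = ∑ i, ∑ j, b i * b j *
        chr ((Pi.single i 1 + Pi.single (τ i) 1) + (Pi.single j 1 + Pi.single (τ j) 1)) q := by
    intro q
    rw [Dst_swp τ hτ, sq, Finset.sum_mul_sum]
    refine Finset.sum_congr rfl fun i _ => Finset.sum_congr rfl fun j _ => ?_
    rw [← chr_mul (Pi.single i 1 + Pi.single (τ i) 1)]
    simp only [hb]; ring
  simp_rw [h1]
  rw [Finset.sum_comm]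
  have h2 : ∀ i, ∑ q : I → ZMod 2, ∑ j, b i * b j *
        chr ((Pi.single i 1 + Pi.single (τ i) 1) + (Pi.single j 1 + Pi.single (τ j) 1)) q
      ≤ (2 : ℝ) ^ Fintype.card I * (2 * (b i) ^ 2) := by
    intro i
    rw [Finset.sum_comm]
    simp_rw [← Finset.mul_sum, sum_chr]
    by_cases hi : τ i = i
    · have : b i = 0 := by simp only [hb]; rw [hi]; simp
      simp [this]
    · have h3 : ∑ j, b i * b j * (if (Pi.single i 1 + Pi.single (τ i) 1 : I → ZMod 2) +
            (Pi.single j 1 + Pi.single (τ j) 1) = 0 then (2 : ℝ) ^ Fintype.card I else 0)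
          ≤ ∑ j, (if j = i then (2 : ℝ) ^ Fintype.card I * (b i) ^ 2 else 0) +
            ∑ j, (if j = τ i then (2 : ℝ) ^ Fintype.card I * (b i) ^ 2 else 0) := by
        rw [← Finset.sum_add_distrib]
        refine Finset.sum_le_sum fun j _ => ?_
        have hpow : (0 : ℝ) < (2 : ℝ) ^ Fintype.card I := by positivity
        by_cases hj : j = i
        · subst hj
          rw [if_pos rfl]
          have h5 : ¬ (j = τ j) := fun H => hi H.symm
          rw [if_neg h5, add_zero]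
          split_ifs
          · exact le_of_eq (by ring)
          · rw [mul_zero]; positivity
        · by_cases hj2 : j = τ i
          · rw [if_neg hj, if_pos hj2, zero_add]
            have h6 : b i * b j ≤ b i ^ 2 := by
              have := hbτ i
              rw [← hj2] at this
              calc b i * b j ≤ |b i * b j| := le_abs_self _
                _ = b i ^ 2 := by rw [abs_mul, this, ← sq_abs]; ring
            split_ifs
            · calc b i * b j * (2 : ℝ) ^ Fintype.card I ≤ b i ^ 2 * (2 : ℝ) ^ Fintype.card I :=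
                    mul_le_mul_of_nonneg_right h6 hpow.le
                _ = _ := by ring
            · rw [mul_zero]; positivity
          · rw [if_neg hj, if_neg hj2, add_zero]
            have h7 : ¬ ((Pi.single i 1 + Pi.single (τ i) 1 : I → ZMod 2) +
                (Pi.single j 1 + Pi.single (τ j) 1) = 0) := by
              intro H
              have H1 := congrFun H i
              have h8 : i ≠ τ j := by
                intro h9; apply hj2; rw [h9, hτ]
              simp only [Pi.add_apply, Pi.zero_apply, Pi.single_eq_same,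
                Pi.single_eq_of_ne (fun h => hi h.symm : i ≠ τ i),
                Pi.single_eq_of_ne (fun h => hj h.symm : i ≠ j), Pi.single_eq_of_ne h8] at H1
              revert H1; decide
            rw [if_neg h7, mul_zero]
      refine h3.trans (le_of_eq ?_)
      rw [Finset.sum_ite_eq' Finset.univ i, Finset.sum_ite_eq' Finset.univ (τ i)]
      simp only [Finset.mem_univ, if_true]
      ring
  refine (Finset.sum_le_sum fun i _ => h2 i).trans (le_of_eq ?_)
  rw [← Finset.mul_sum]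
  congr 1
  rw [Finset.mul_sum]
  refine Finset.sum_congr rfl fun i _ => ?_
  rw [← sq_abs (b i), hbabs, mul_pow, sq_abs]; ring

end core

end Pool.Agent.Helper41.Wob
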