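import Pool.Agent.Helper41.Wob2

set_option autoImplicit false

namespace Pool.Agent.Helper41.Wob

open Finset

variable {I : Type*} [Fintype I] [DecidableEq I]

/-- precomposition as a permutation -/
def preP (σ : Equiv.Perm I) : Equiv.Perm (I → ZMod 2) :=
  ⟨fun w => w ∘ σ, fun w => w ∘ σ.symm, fun w => by funext i; simp, fun w => by funext i; simp⟩

lemma four_close (g : (I → ZMod 2) → ℝ) (σ : Equiv.Perm I) (c : ℝ)
    (h : ∑ h, (g (h ∘ σ) - g h) ^ 2 ≤ c * ∑ h, g h ^ 2) :
    ∑ w, (four g (preP σ w) - four g w) ^ 2 ≤ c * ∑ w, four g w ^ 2 := by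
  have h1 : ∀ w, four g (preP σ w) - four g w = four (fun h => g (h ∘ σ) - g h) w := by
    intro w
    rw [four_sub (fun h => g (h ∘ σ)) g w, four_perm]
    rfl
  simp_rw [h1]
  rw [parseval, parseval]
  have : (0 : ℝ) < 2 ^ Fintype.card I := by positivity
  calc (2 : ℝ) ^ Fintype.card I * ∑ h, (g (h ∘ σ) - g h) ^ 2
      ≤ (2 : ℝ) ^ Fintype.card I * (c * ∑ h, g h ^ 2) := mul_le_mul_of_nonneg_left h this.le
    _ = _ := by ring

lemma chr_comm (h w : I → ZMod 2) : chr h w = chr w h := by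
  unfold chr
  refine Finset.prod_congr rfl fun i _ => by rw [mul_comm]

/-- the spectral measure is balanced at coordinates outside the support -/
lemma balanced (g : (I → ZMod 2) → ℝ) (b : I) (hb : ∀ h : I → ZMod 2, h b ≠ 0 → g h = 0) :
    ∑ w, four g w ^ 2 * sgn (w b) = 0 := by
  have h1 : ∀ w, four g (Pi.single b 1 + w) = four g w := by
    intro w
    unfold four
    refine Finset.sum_congr rfl fun h _ => ?_
    by_cases hh : h b = 0
    · rw [chr_add_right, chr_comm h (Pi.single b 1), chr_single, hh, sgn_zero, one_mul]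
    · rw [hb h hh]; ring
  have h2 : ∑ w, four g w ^ 2 * sgn (w b) = - ∑ w, four g w ^ 2 * sgn (w b) := by
    conv_lhs => rw [← Equiv.sum_comp (Equiv.addLeft (Pi.single b 1 : I → ZMod 2))]
    rw [← Finset.sum_neg_distrib]
    refine Finset.sum_congr rfl fun w _ => ?_
    simp only [Equiv.coe_addLeft]
    rw [h1, Pi.add_apply, Pi.single_eq_same, sgn_add, sgn_one]; ring
  linarith

theorem core {J : Type*} [Fintype J] (τ : J → I → I) (hτ : ∀ s i, τ s (τ s i) = i)
    (u : I → ℝ) (x0 : I)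
    (h0 : ∑ s, (u x0 - u (τ s x0)) = 2)
    (h1 : ∀ i, i ≠ x0 → ∑ s, (u i - u (τ s i)) ≤ 0)
    (h2 : ∀ i, i ≠ x0 → u i * ∑ s, (u i - u (τ s i)) = 0)
    (K : ℝ) (hK : u x0 ≤ K)
    (g : (I → ZMod 2) → ℝ)
    (hg : ∀ i, i ≠ x0 → ∑ s, (u i - u (τ s i)) ≠ 0 → ∀ h : I → ZMod 2, h i ≠ 0 → g h = 0)
    (η ε T : ℝ) (hη : 0 ≤ η) (hT : 0 < T)
    (hc : ∀ s q, ∑ h, (g (h ∘ swp (τ s) q) - g h) ^ 2 ≤ η ^ 2 * ∑ h, g h ^ 2)
    (hcτ : ∀ s, ∑ h, (g (h ∘ τ s) - g h) ^ 2 ≤ η ^ 2 * ∑ h, g h ^ 2)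
    (htr : ∑ h, (g (Pi.single x0 1 + h) - g h) ^ 2 ≤ ε * ∑ h, g h ^ 2) :
    (1 - ε / 2) * ∑ h, g h ^ 2 ≤
      ((Fintype.card J) * (η * T) + (2 + (Fintype.card J) * T) *
        ((Fintype.card J) * (2 * K / T ^ 2 + 2 * η))) * ∑ h, g h ^ 2 := by
  set m : ℝ := (Fintype.card J : ℝ) with hm
  set n := Fintype.card I with hn
  have hpow : (0 : ℝ) < 2 ^ n := by positivity
  set F := four g with hF
  set N := ∑ w, F w ^ 2 with hN
  have hpar : N = 2 ^ n * ∑ h, g h ^ 2 := parseval g
  have hN0 : 0 ≤ N := Finset.sum_nonneg fun _ _ => sq_nonneg _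
  set ν : I → ℝ := fun i => ∑ s, (u i - u (τ s i)) with hν
  -- sums over involutions
  have hre : ∀ (s : J) (f : I → ℝ), ∑ i, f (τ s i) = ∑ i, f i := fun s f =>
    Equiv.sum_comp (invPerm (τ s) (hτ s)) f
  have hνsum : ∑ i, ν i = 0 := by
    simp only [hν]
    rw [Finset.sum_comm]
    refine Finset.sum_eq_zero fun s _ => ?_
    rw [Finset.sum_sub_distrib, hre s u, sub_self]
  have hen : ∀ s, ∑ i, (u i - u (τ s i)) ^ 2 = 2 * ∑ i, u i * (u i - u (τ s i)) := by
    intro s
    have e1 : ∑ i, (u i - u (τ s i)) ^ 2 = ∑ i, u i * (u i - u (τ s i))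
        + ∑ i, u (τ s i) * (u (τ s i) - u (τ s (τ s i))) := by
      rw [← Finset.sum_add_distrib]
      refine Finset.sum_congr rfl fun i _ => ?_
      rw [hτ]; ring
    rw [e1, hre s (fun i => u i * (u i - u (τ s i)))]; ring
  have hentot : ∑ s, ∑ i, (u i - u (τ s i)) ^ 2 = 4 * u x0 := by
    simp_rw [hen]
    rw [← Finset.mul_sum, Finset.sum_comm]
    simp_rw [← Finset.mul_sum]
    rw [Finset.sum_eq_single x0]
    · rw [h0]; ring
    · intro i _ hi; exact h2 i hi
    · simp
  have hens : ∀ s, (1 / 2) * ∑ i, (u i - u (τ s i)) ^ 2 ≤ 2 * K := by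
    intro s
    have : ∑ i, (u i - u (τ s i)) ^ 2 ≤ ∑ s, ∑ i, (u i - u (τ s i)) ^ 2 :=
      Finset.single_le_sum (f := fun s => ∑ i, (u i - u (τ s i)) ^ 2)
        (fun _ _ => Finset.sum_nonneg fun _ _ => sq_nonneg _) (Finset.mem_univ s)
    rw [hentot] at this
    linarith
  -- the linear functional
  set L : (I → ZMod 2) → ℝ := fun w => (1 / 2) * ∑ i, ν i * sgn (w i) with hL
  have hLD : ∀ w, ∑ s, Dst (τ s) u w = L w := by
    intro w
    simp only [Dst, hL, hν]
    rw [← Finset.mul_sum, Finset.sum_comm]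
    congr 1
    refine Finset.sum_congr rfl fun i _ => ?_
    rw [Finset.sum_mul]
  have hνabs : ∑ i, |ν i| = 4 := by
    have e1 : ∑ i, |ν i| = |ν x0| + ∑ i ∈ Finset.univ.erase x0, |ν i| :=
      (Finset.add_sum_erase _ _ (Finset.mem_univ x0)).symm
    have e2 : ∑ i, ν i = ν x0 + ∑ i ∈ Finset.univ.erase x0, ν i :=
      (Finset.add_sum_erase _ _ (Finset.mem_univ x0)).symm
    have e3 : ∑ i ∈ Finset.univ.erase x0, |ν i| = - ∑ i ∈ Finset.univ.erase x0, ν i := by
      rw [← Finset.sum_neg_distrib]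
      refine Finset.sum_congr rfl fun i hi => ?_
      exact abs_of_nonpos (h1 i (Finset.ne_of_mem_erase hi))
    have e4 : ν x0 = 2 := h0
    rw [e1, e3, e4]
    rw [hνsum, e4] at e2
    have : ∑ i ∈ Finset.univ.erase x0, ν i = -2 := by linarith
    rw [this]; norm_num
  have hLle : ∀ w, L w ≤ 2 := by
    intro w
    have : ∑ i, ν i * sgn (w i) ≤ ∑ i, |ν i| := by
      refine Finset.sum_le_sum fun i _ => ?_
      calc ν i * sgn (w i) ≤ |ν i * sgn (w i)| := le_abs_self _
        _ = |ν i| := by rw [abs_mul, abs_sgn, mul_one]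
    rw [hνabs] at this
    simp only [hL]; linarith
  have hFL : ∑ w, F w ^ 2 * L w = ∑ w, F w ^ 2 * sgn (w x0) := by
    have e1 : ∑ w, F w ^ 2 * L w = (1 / 2) * ∑ i, ν i * ∑ w, F w ^ 2 * sgn (w i) := by
      simp only [hL]
      simp_rw [Finset.mul_sum]
      rw [Finset.sum_comm]
      refine Finset.sum_congr rfl fun i _ => Finset.sum_congr rfl fun w _ => by ring
    rw [e1, Finset.sum_eq_single x0]
    · have : ν x0 = 2 := h0
      rw [this]; ring
    · intro i _ hi
      by_cases hz : ν i = 0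
      · rw [hz, zero_mul]
      · rw [balanced g i (hg i hi hz), mul_zero]
    · simp
  -- translation
  have htrF : (1 - ε / 2) * N ≤ ∑ w, F w ^ 2 * sgn (w x0) := by
    have e1 : ∀ w, four (fun h => g (Pi.single x0 1 + h) - g h) w = (sgn (w x0) - 1) * F w := by
      intro w
      have a := four_sub (fun h => g (Pi.single x0 1 + h)) g w
      have b := four_add g (Pi.single x0 1) w
      rw [chr_single] at b
      calc _ = four (fun h => g (Pi.single x0 1 + h)) w - four g w := a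
        _ = sgn (w x0) * four g w - four g w := by rw [b]
        _ = _ := by ring
    have e2 : ∑ w, ((sgn (w x0) - 1) * F w) ^ 2 ≤ ε * N := by
      simp_rw [← e1]
      rw [parseval, hpar]
      calc (2 : ℝ) ^ n * ∑ h, (g (Pi.single x0 1 + h) - g h) ^ 2
          ≤ 2 ^ n * (ε * ∑ h, g h ^ 2) := mul_le_mul_of_nonneg_left htr hpow.le
        _ = _ := by ring
    have e3 : ∑ w, ((sgn (w x0) - 1) * F w) ^ 2 = 2 * N - 2 * ∑ w, F w ^ 2 * sgn (w x0) := by
      rw [hN, Finset.mul_sum, Finset.mul_sum, ← Finset.sum_sub_distrib]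
      refine Finset.sum_congr rfl fun w _ => ?_
      have := sgn_sq (w x0)
      calc ((sgn (w x0) - 1) * F w) ^ 2
          = (sgn (w x0) * sgn (w x0) - 2 * sgn (w x0) + 1) * F w ^ 2 := by ring
        _ = _ := by rw [this]; ring
    rw [e3] at e2
    linarith
  -- bad events
  set ψ : J → (I → ZMod 2) → ℝ := fun s w => if |Dst (τ s) u w| ≤ T then Dst (τ s) u w else 0
    with hψ
  set bd : J → (I → ZMod 2) → ℝ := fun s w => if |Dst (τ s) u w| ≤ T then 0 else 1 with hbd
  have hψabs : ∀ s w, |ψ s w| ≤ T := by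
    intro s w
    simp only [hψ]
    split_ifs with h
    · exact h
    · simpa using hT.le
  have hbd0 : ∀ s w, 0 ≤ bd s w := by
    intro s w; simp only [hbd]; split_ifs <;> norm_num
  have hbd1 : ∀ s w, |bd s w| ≤ 1 := by
    intro s w; simp only [hbd]; split_ifs <;> norm_num
  have hgood : ∀ s, ∑ w, F w ^ 2 * ψ s w ≤ η * T * N := by
    intro s
    have := close_odd F (preP (invPerm (τ s) (hτ s))) (fun w => by
      funext i; simp [preP, invPerm, hτ]) η T hη hT.le
      (four_close g (invPerm (τ s) (hτ s)) (η ^ 2) (hcτ s)) (ψ s) (hψabs s) (by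
        intro w
        have e : Dst (τ s) u (preP (invPerm (τ s) (hτ s)) w) = - Dst (τ s) u w :=
          Dst_tau (τ s) (hτ s) u w
        simp only [hψ, e, abs_neg]
        split_ifs <;> simp)
    exact (le_abs_self _).trans this
  have hbad : ∀ s, ∑ w, F w ^ 2 * bd s w ≤ (2 * K / T ^ 2 + 2 * η) * N := by
    intro s
    have e1 : ∀ q : I → ZMod 2, ∑ w, F w ^ 2 * bd s w
        ≤ ∑ w, F w ^ 2 * bd s (w ∘ swp (τ s) q) + 2 * η * N := by
      intro q
      have c := close_diff F (preP (swpPerm (τ s) (hτ s) q)) η 1 hη zero_le_one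
        (four_close g (swpPerm (τ s) (hτ s) q) (η ^ 2) (hc s q)) (bd s) (hbd1 s)
      have e2 : ∑ w, F (preP (swpPerm (τ s) (hτ s) q) w) ^ 2 * bd s w
          = ∑ w, F w ^ 2 * bd s (w ∘ swp (τ s) q) := by
        rw [← Equiv.sum_comp (preP (swpPerm (τ s) (hτ s) q))
          (fun w => F w ^ 2 * bd s (w ∘ swp (τ s) q))]
        refine Finset.sum_congr rfl fun w _ => ?_
        congr 2
        funext i
        simp [preP, swpPerm, swp_invol (hτ s)]
      have e3 : ∑ w, (F (preP (swpPerm (τ s) (hτ s) q) w) ^ 2 - F w ^ 2) * bd s w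
          = ∑ w, F w ^ 2 * bd s (w ∘ swp (τ s) q) - ∑ w, F w ^ 2 * bd s w := by
        rw [← e2, ← Finset.sum_sub_distrib]
        refine Finset.sum_congr rfl fun w _ => by ring
      rw [e3] at c
      have c2 := (abs_le.1 c).1
      linarith
    have e4 : (2 : ℝ) ^ n * ∑ w, F w ^ 2 * bd s w
        ≤ ∑ q : I → ZMod 2, (∑ w, F w ^ 2 * bd s (w ∘ swp (τ s) q) + 2 * η * N) := by
      have hcard : (Fintype.card (I → ZMod 2) : ℝ) = 2 ^ n := by
        rw [Fintype.card_fun, ZMod.card]; push_cast; rfl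
      calc (2 : ℝ) ^ n * ∑ w, F w ^ 2 * bd s w
          = ∑ q : I → ZMod 2, ∑ w, F w ^ 2 * bd s w := by
            rw [Finset.sum_const, Finset.card_univ, nsmul_eq_mul, hcard]
        _ ≤ _ := Finset.sum_le_sum fun q _ => e1 q
    have e5 : ∀ w, ∑ q : I → ZMod 2, bd s (w ∘ swp (τ s) q) ≤ 2 ^ n * (2 * K / T ^ 2) := by
      intro w
      have e6 : ∀ q : I → ZMod 2, bd s (w ∘ swp (τ s) q)
          ≤ (Dst (τ s) u (w ∘ swp (τ s) q)) ^ 2 / T ^ 2 := by
        intro q
        simp only [hbd]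
        split_ifs with h
        · positivity
        · rw [le_div_iff₀ (by positivity), one_mul, ← sq_abs (Dst _ _ _)]
          exact pow_le_pow_left₀ hT.le (not_le.1 h).le 2
      calc ∑ q : I → ZMod 2, bd s (w ∘ swp (τ s) q)
          ≤ ∑ q : I → ZMod 2, (Dst (τ s) u (w ∘ swp (τ s) q)) ^ 2 / T ^ 2 :=
            Finset.sum_le_sum fun q _ => e6 q
        _ = (∑ q : I → ZMod 2, (Dst (τ s) u (w ∘ swp (τ s) q)) ^ 2) / T ^ 2 :=
            (Finset.sum_div _ _ _).symm
        _ ≤ (2 ^ n * (2 * K)) / T ^ 2 := by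
            refine div_le_div_of_nonneg_right ?_ (by positivity)
            exact (second_moment (τ s) (hτ s) u w).trans
              (mul_le_mul_of_nonneg_left (hens s) hpow.le)
        _ = _ := by ring
    have e7 : ∑ q : I → ZMod 2, (∑ w, F w ^ 2 * bd s (w ∘ swp (τ s) q) + 2 * η * N)
        ≤ 2 ^ n * ((2 * K / T ^ 2 + 2 * η) * N) := by
      rw [Finset.sum_add_distrib, Finset.sum_comm]
      have hcard : (Fintype.card (I → ZMod 2) : ℝ) = 2 ^ n := by
        rw [Fintype.card_fun, ZMod.card]; push_cast; rfl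
      rw [Finset.sum_const, Finset.card_univ, nsmul_eq_mul, hcard]
      have : ∑ w, ∑ q : I → ZMod 2, F w ^ 2 * bd s (w ∘ swp (τ s) q)
          ≤ ∑ w, F w ^ 2 * (2 ^ n * (2 * K / T ^ 2)) := by
        refine Finset.sum_le_sum fun w _ => ?_
        rw [← Finset.mul_sum]
        exact mul_le_mul_of_nonneg_left (e5 w) (sq_nonneg _)
      rw [← Finset.sum_mul] at this
      calc _ ≤ N * (2 ^ n * (2 * K / T ^ 2)) + 2 ^ n * (2 * η * N) := by
            linarith [this]
        _ = _ := by ring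
    have e8 := e4.trans e7
    exact le_of_mul_le_mul_left e8 hpow
  -- pointwise inequality
  have hpt : ∀ w, L w ≤ ∑ s, ψ s w + (2 + m * T) * ∑ s, bd s w := by
    intro w
    by_cases hgd : ∀ s, |Dst (τ s) u w| ≤ T
    · have e1 : ∑ s, ψ s w = L w := by
        rw [← hLD]
        refine Finset.sum_congr rfl fun s _ => ?_
        simp only [hψ]; rw [if_pos (hgd s)]
      have e2 : ∑ s, bd s w = 0 := by
        refine Finset.sum_eq_zero fun s _ => ?_
        simp only [hbd]; rw [if_pos (hgd s)]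
      rw [e1, e2]; simp
    · push Not at hgd
      obtain ⟨s, hs⟩ := hgd
      have e1 : (1 : ℝ) ≤ ∑ s, bd s w := by
        have : bd s w = 1 := by simp only [hbd]; rw [if_neg (not_le.2 hs)]
        rw [← this]
        exact Finset.single_le_sum (f := fun s => bd s w) (fun s _ => hbd0 s w)
          (Finset.mem_univ s)
      have e2 : -(m * T) ≤ ∑ s, ψ s w := by
        have : ∑ _s : J, (-T) ≤ ∑ s, ψ s w :=
          Finset.sum_le_sum fun s _ => (abs_le.1 (hψabs s w)).1
        rw [Finset.sum_const, Finset.card_univ, nsmul_eq_mul] at this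
        linarith
      have hm0 : 0 ≤ m * T := by positivity
      have e3 : (2 + m * T) * 1 ≤ (2 + m * T) * ∑ s, bd s w :=
        mul_le_mul_of_nonneg_left e1 (by linarith)
      have := hLle w
      linarith
  have hsum : ∑ w, F w ^ 2 * L w ≤ (m * (η * T) + (2 + m * T) *
        (m * (2 * K / T ^ 2 + 2 * η))) * N := by
    calc ∑ w, F w ^ 2 * L w ≤ ∑ w, F w ^ 2 * (∑ s, ψ s w + (2 + m * T) * ∑ s, bd s w) :=
          Finset.sum_le_sum fun w _ => mul_le_mul_of_nonneg_left (hpt w) (sq_nonneg _)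
      _ = ∑ s, ∑ w, F w ^ 2 * ψ s w + (2 + m * T) * ∑ s, ∑ w, F w ^ 2 * bd s w := by
          rw [Finset.sum_comm (s := (Finset.univ : Finset J)),
            Finset.sum_comm (s := (Finset.univ : Finset J)), Finset.mul_sum,
            ← Finset.sum_add_distrib]
          refine Finset.sum_congr rfl fun w _ => ?_
          rw [mul_add, Finset.mul_sum, Finset.mul_sum, Finset.mul_sum, Finset.mul_sum]
          congr 1
          refine Finset.sum_congr rfl fun s _ => by ring
      _ ≤ ∑ _s : J, η * T * N + (2 + m * T) * ∑ _s : J, (2 * K / T ^ 2 + 2 * η) * N := by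
          have hm0 : 0 ≤ m * T := by positivity
          refine add_le_add (Finset.sum_le_sum fun s _ => hgood s)
            (mul_le_mul_of_nonneg_left (Finset.sum_le_sum fun s _ => hbad s) (by linarith))
      _ = _ := by
          rw [Finset.sum_const, Finset.card_univ, nsmul_eq_mul, Finset.sum_const,
            Finset.card_univ, nsmul_eq_mul]
          ring
  have hfin := htrF.trans ((hFL ▸ hsum : _))
  rw [hpar] at hfin
  have e9 : (2 : ℝ) ^ n * ((1 - ε / 2) * ∑ h, g h ^ 2) ≤ 2 ^ n * ((m * (η * T) + (2 + m * T) *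
        (m * (2 * K / T ^ 2 + 2 * η))) * ∑ h, g h ^ 2) := by
    calc _ = (1 - ε / 2) * (2 ^ n * ∑ h, g h ^ 2) := by ring
      _ ≤ _ := hfin
      _ = _ := by ring
  exact le_of_mul_le_mul_left e9 hpow

end Pool.Agent.Helper41.Wob
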