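import Mathlib

set_option autoImplicit false

namespace Pool.Agent.Helper41.Wob

open Finset Filter Topology

variable {X : Type*} (G : SimpleGraph X) [G.LocallyFinite]

open Classical in
/-- probability that simple random walk from `x` hits `x0` within `n` steps, staying in `B` -/
noncomputable def hitp (x0 : X) (B : Set X) : ℕ → X → ℝ
  | 0, x => if x = x0 then 1 else 0
  | n + 1, x => if x = x0 then 1 else if x ∈ B then
      (G.degree x : ℝ)⁻¹ * ∑ z ∈ G.neighborFinset x, hitp x0 B n z else 0

open Classical in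
/-- balls -/
noncomputable def ballF : ℕ → X → Finset X
  | 0, x => {x}
  | n + 1, x => insert x ((G.neighborFinset x).biUnion (ballF n))

variable {G}

lemma hitp_root (x0 : X) (B : Set X) (n : ℕ) : hitp G x0 B n x0 = 1 := by
  cases n <;> simp [hitp]

lemma hitp_nonneg (x0 : X) (B : Set X) (n : ℕ) (x : X) : 0 ≤ hitp G x0 B n x := by
  induction n generalizing x with
  | zero => simp only [hitp]; split_ifs <;> norm_num
  | succ n ih =>
    simp only [hitp]
    split_ifs
    · norm_num
    · exact mul_nonneg (by positivity) (Finset.sum_nonneg fun z _ => ih z)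
    · exact le_rfl

lemma avg_le_one (x : X) (f : X → ℝ) (hf : ∀ z, f z ≤ 1) :
    (G.degree x : ℝ)⁻¹ * ∑ z ∈ G.neighborFinset x, f z ≤ 1 := by
  have h1 : ∑ z ∈ G.neighborFinset x, f z ≤ G.degree x := by
    calc ∑ z ∈ G.neighborFinset x, f z ≤ ∑ _z ∈ G.neighborFinset x, (1 : ℝ) :=
          Finset.sum_le_sum fun z _ => hf z
      _ = G.degree x := by simp
  rcases Nat.eq_zero_or_pos (G.degree x) with h | h
  · rw [h]; simp
  · have : (0 : ℝ) < G.degree x := by exact_mod_cast h
    rw [inv_mul_le_iff₀ this, mul_one]; exact h1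

lemma hitp_le_one (x0 : X) (B : Set X) (n : ℕ) (x : X) : hitp G x0 B n x ≤ 1 := by
  induction n generalizing x with
  | zero => simp only [hitp]; split_ifs <;> norm_num
  | succ n ih =>
    simp only [hitp]
    split_ifs
    · norm_num
    · exact avg_le_one x _ ih
    · norm_num

lemma hitp_mono (x0 : X) (B : Set X) (n : ℕ) (x : X) :
    hitp G x0 B n x ≤ hitp G x0 B (n + 1) x := by
  induction n generalizing x with
  | zero =>
    by_cases h : x = x0
    · subst h; rw [hitp_root, hitp_root]
    · have : hitp G x0 B 0 x = 0 := by simp [hitp, h]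
      rw [this]; exact hitp_nonneg _ _ _ _
  | succ n ih =>
    by_cases h : x = x0
    · subst h; rw [hitp_root, hitp_root]
    · rw [hitp, hitp, if_neg h, if_neg h]
      split_ifs
      · exact mul_le_mul_of_nonneg_left (Finset.sum_le_sum fun z _ => ih z) (by positivity)
      · exact le_rfl

lemma hitp_monotone (x0 : X) (B : Set X) (x : X) : Monotone fun n => hitp G x0 B n x :=
  monotone_nat_of_le_succ fun n => hitp_mono x0 B n x

lemma hitp_off (x0 : X) (B : Set X) (n : ℕ) (x : X) (h : x ≠ x0) (hB : x ∉ B) :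
    hitp G x0 B n x = 0 := by
  cases n <;> simp [hitp, h, hB]

lemma hitp_le_univ (x0 : X) (B : Set X) (n : ℕ) (x : X) :
    hitp G x0 B n x ≤ hitp G x0 Set.univ n x := by
  induction n generalizing x with
  | zero => simp [hitp]
  | succ n ih =>
    by_cases h : x = x0
    · subst h; rw [hitp_root, hitp_root]
    · by_cases hB : x ∈ B
      · rw [hitp, hitp, if_neg h, if_neg h, if_pos hB, if_pos (Set.mem_univ x)]
        exact mul_le_mul_of_nonneg_left (Finset.sum_le_sum fun z _ => ih z) (by positivity)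
      · rw [hitp_off x0 B _ x h hB]; exact hitp_nonneg _ _ _ _

lemma hitp_ball (x0 : X) (B : Set X) (n : ℕ) (x : X) (h : ↑(ballF G n x) ⊆ B) :
    hitp G x0 B n x = hitp G x0 Set.univ n x := by
  classical
  induction n generalizing x with
  | zero => simp [hitp]
  | succ n ih =>
    by_cases hx : x = x0
    · subst hx; rw [hitp_root, hitp_root]
    · have hB : x ∈ B := h (by simp [ballF])
      rw [hitp, hitp, if_neg hx, if_neg hx, if_pos hB, if_pos (Set.mem_univ x)]
      congr 1
      refine Finset.sum_congr rfl fun z hz => ih z fun y hy => h ?_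
      simp only [ballF, Finset.coe_insert, Finset.coe_biUnion, Set.mem_insert_iff]
      right
      exact Set.mem_biUnion (Finset.mem_coe.2 hz) hy

/-- probability to hit `x0` before leaving `B` -/
noncomputable def hitv (G : SimpleGraph X) [G.LocallyFinite] (x0 : X) (B : Set X) (x : X) : ℝ :=
  ⨆ n, hitp G x0 B n x

lemma hitp_bdd (x0 : X) (B : Set X) (x : X) : BddAbove (Set.range fun n => hitp G x0 B n x) :=
  ⟨1, by rintro _ ⟨n, rfl⟩; exact hitp_le_one _ _ _ _⟩

lemma hitp_tendsto (x0 : X) (B : Set X) (x : X) :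
    Tendsto (fun n => hitp G x0 B n x) atTop (𝓝 (hitv G x0 B x)) :=
  tendsto_atTop_ciSup (hitp_monotone x0 B x) (hitp_bdd x0 B x)

lemma hitp_le_hitv (x0 : X) (B : Set X) (n : ℕ) (x : X) : hitp G x0 B n x ≤ hitv G x0 B x :=
  le_ciSup (hitp_bdd x0 B x) n

lemma hitv_root (x0 : X) (B : Set X) : hitv G x0 B x0 = 1 :=
  tendsto_nhds_unique (hitp_tendsto x0 B x0) (by simp [hitp_root])

lemma hitv_nonneg (x0 : X) (B : Set X) (x : X) : 0 ≤ hitv G x0 B x :=
  (hitp_nonneg x0 B 0 x).trans (hitp_le_hitv x0 B 0 x)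

lemma hitv_le_one (x0 : X) (B : Set X) (x : X) : hitv G x0 B x ≤ 1 :=
  ciSup_le fun n => hitp_le_one x0 B n x

lemma hitv_off (x0 : X) (B : Set X) (x : X) (h : x ≠ x0) (hB : x ∉ B) : hitv G x0 B x = 0 :=
  tendsto_nhds_unique (hitp_tendsto x0 B x) (by simp [hitp_off x0 B _ x h hB])

lemma hitv_le_univ (x0 : X) (B : Set X) (x : X) : hitv G x0 B x ≤ hitv G x0 Set.univ x :=
  ciSup_le fun n => (hitp_le_univ x0 B n x).trans (hitp_le_hitv x0 Set.univ n x)

lemma hitv_harm (x0 : X) (B : Set X) (x : X) (h : x ≠ x0) (hB : x ∈ B) :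
    hitv G x0 B x = (G.degree x : ℝ)⁻¹ * ∑ z ∈ G.neighborFinset x, hitv G x0 B z := by
  have h1 : Tendsto (fun n => hitp G x0 B (n + 1) x) atTop (𝓝 (hitv G x0 B x)) :=
    (hitp_tendsto x0 B x).comp (tendsto_add_atTop_nat 1)
  have h2 : ∀ n, hitp G x0 B (n + 1) x
      = (G.degree x : ℝ)⁻¹ * ∑ z ∈ G.neighborFinset x, hitp G x0 B n z := by
    intro n
    rw [hitp, if_neg h, if_pos hB]
  simp_rw [h2] at h1
  refine tendsto_nhds_unique h1 (Tendsto.const_mul _ (tendsto_finset_sum _ fun z _ => ?_))
  exact hitp_tendsto x0 B z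

lemma hitv_harm' (x0 : X) (B : Set X) (x : X) (h : x ≠ x0) (hB : x ∈ B) :
    ∑ z ∈ G.neighborFinset x, (hitv G x0 B x - hitv G x0 B z) = 0 := by
  rw [Finset.sum_sub_distrib, Finset.sum_const, nsmul_eq_mul, G.card_neighborFinset_eq_degree]
  rcases Nat.eq_zero_or_pos (G.degree x) with h0 | h0
  · have : G.neighborFinset x = ∅ := by
      rw [← Finset.card_eq_zero, G.card_neighborFinset_eq_degree]; exact h0
    rw [this, h0]; simp
  · have h3 : (0 : ℝ) < G.degree x := by exact_mod_cast h0
    have h4 := hitv_harm (G := G) x0 B x h hB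
    rw [sub_eq_zero, h4, ← mul_assoc, mul_inv_cancel₀ h3.ne', one_mul]

lemma ballF_self (n : ℕ) (x : X) : x ∈ ballF G n x := by
  classical
  cases n <;> simp [ballF]

lemma ballF_mono (n : ℕ) (x : X) : ballF G n x ⊆ ballF G (n + 1) x := by
  classical
  induction n generalizing x with
  | zero => intro y hy; simp only [ballF, Finset.mem_singleton] at hy; subst hy; simp [ballF]
  | succ n ih =>
    intro y hy
    rw [ballF, Finset.mem_insert, Finset.mem_biUnion] at hy ⊢
    rcases hy with hy | ⟨z, hz, hy⟩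
    · exact Or.inl hy
    · exact Or.inr ⟨z, hz, ih z hy⟩

lemma ballF_walk {x y : X} (p : G.Walk x y) (n : ℕ) (h : p.length ≤ n) : y ∈ ballF G n x := by
  classical
  induction p generalizing n with
  | nil => exact ballF_self _ _
  | @cons a b c hab p ih =>
    cases n with
    | zero => simp at h
    | succ n =>
      rw [SimpleGraph.Walk.length_cons] at h
      rw [ballF, Finset.mem_insert, Finset.mem_biUnion]
      exact Or.inr ⟨b, by simpa using hab, ih n (by omega)⟩

lemma ballF_card (D : ℕ) (hD : ∀ x, G.degree x ≤ D) (n : ℕ) (x : X) :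
    (ballF G n x).card ≤ (D + 1) ^ n := by
  classical
  induction n generalizing x with
  | zero => simp [ballF]
  | succ n ih =>
    rw [ballF]
    calc _ ≤ ((G.neighborFinset x).biUnion (ballF G n)).card + 1 := Finset.card_insert_le _ _
      _ ≤ (∑ z ∈ G.neighborFinset x, (ballF G n z).card) + 1 :=
          Nat.add_le_add_right Finset.card_biUnion_le 1
      _ ≤ (∑ z ∈ G.neighborFinset x, (D + 1) ^ n) + 1 :=
          Nat.add_le_add_right (Finset.sum_le_sum fun z _ => ih z) 1
      _ = G.degree x * (D + 1) ^ n + 1 := by simp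
      _ ≤ D * (D + 1) ^ n + (D + 1) ^ n :=
          Nat.add_le_add (Nat.mul_le_mul_right _ (hD x)) (Nat.one_le_pow _ _ (by omega))
      _ = (D + 1) ^ (n + 1) := by ring

lemma ballF_dist (hG : G.Connected) {x y : X} (n : ℕ) (h : G.dist x y ≤ n) : y ∈ ballF G n x := by
  obtain ⟨p, hp⟩ := hG.exists_walk_length_eq_dist x y
  exact ballF_walk p n (by omega)

end Pool.Agent.Helper41.Wob
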