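import Pool.Agent.Helper41.Wob4

set_option autoImplicit false

namespace Pool.Agent.Helper41.Wob

open Finset Filter Topology
open scoped ENNReal

variable {X : Type*} {G : SimpleGraph X} [G.LocallyFinite]

/-- weight of a walk -/
noncomputable def wt {x y : X} (p : G.Walk x y) : ℝ≥0∞ :=
  ∏ i ∈ Finset.range p.length, ((G.degree (p.getVert i) : ℝ≥0∞))⁻¹

lemma wt_nil (x : X) : wt (SimpleGraph.Walk.nil : G.Walk x x) = 1 := by simp [wt]

lemma wt_cons {x y z : X} (h : G.Adj x y) (p : G.Walk y z) :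
    wt (SimpleGraph.Walk.cons h p) = (G.degree x : ℝ≥0∞)⁻¹ * wt p := by
  unfold wt
  rw [SimpleGraph.Walk.length_cons, Finset.prod_range_succ']
  simp only [SimpleGraph.Walk.getVert_cons_succ]
  rw [mul_comm]
  rfl

/-- first hit property -/
def FH {x x0 : X} (p : G.Walk x x0) : Prop := ∀ i, i < p.length → p.getVert i ≠ x0

lemma FH_cons {x y x0 : X} (h : G.Adj x y) (p : G.Walk y x0) :
    FH (SimpleGraph.Walk.cons h p) ↔ x ≠ x0 ∧ FH p := by
  unfold FH
  constructor
  · intro H
    refine ⟨?_, fun i hi => ?_⟩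
    · have := H 0 (by simp)
      simpa using this
    · have := H (i + 1) (by simpa using hi)
      simpa using this
  · rintro ⟨H1, H2⟩ i hi
    cases i with
    | zero => simpa using H1
    | succ i =>
      rw [SimpleGraph.Walk.getVert_cons_succ]
      exact H2 i (by simpa using hi)

/-- the cons map -/
def consMap (x x0 : X) (a : Σ y : {y // y ∈ G.neighborFinset x}, G.Walk y.1 x0) : G.Walk x x0 :=
  SimpleGraph.Walk.cons (by have := a.1.2; rwa [SimpleGraph.mem_neighborFinset] at this) a.2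

lemma consMap_inj (x x0 : X) : Function.Injective (consMap (G := G) x x0) := by
  rintro ⟨⟨y, hy⟩, p⟩ ⟨⟨y', hy'⟩, p'⟩ h
  unfold consMap at h
  simp only [SimpleGraph.Walk.cons.injEq] at h
  obtain ⟨h1, h2⟩ := h
  subst h1
  simp only [heq_eq_eq] at h2
  subst h2
  rfl

lemma tsum_cons (x x0 : X) (F : G.Walk x x0 → ℝ≥0∞)
    (hF : ∀ p : G.Walk x x0, p.length = 0 → F p = 0) :
    ∑' p, F p = ∑ y ∈ (G.neighborFinset x).attach, ∑' p : G.Walk y.1 x0,
      F (SimpleGraph.Walk.cons (by have := y.2; rwa [SimpleGraph.mem_neighborFinset] at this) p) := by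
  have h1 : ∑' a, F (consMap x x0 a) = ∑' p, F p := by
    refine (consMap_inj x x0).tsum_eq ?_
    intro p hp
    cases p with
    | nil => exact absurd (hF _ rfl) hp
    | @cons _ y _ h p => exact ⟨⟨⟨y, by simpa using h⟩, p⟩, rfl⟩
  rw [← h1, ENNReal.tsum_sigma', tsum_fintype]
  rfl

open Classical in
/-- first-hit sums truncated in length -/
noncomputable def Hn (G : SimpleGraph X) [G.LocallyFinite] (x0 : X) (n : ℕ) (x : X) : ℝ≥0∞ :=
  ∑' p : G.Walk x x0, if FH p ∧ p.length ≤ n then wt p else 0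

open Classical in
/-- first-hit sums -/
noncomputable def Hinf (G : SimpleGraph X) [G.LocallyFinite] (x0 : X) (x : X) : ℝ≥0∞ :=
  ∑' p : G.Walk x x0, if FH p then wt p else 0

lemma walk_length_zero {x y : X} (p : G.Walk x y) (h : p.length = 0) : x = y := by
  cases p with
  | nil => rfl
  | cons _ _ => simp at h

lemma Hn_root (x0 : X) (n : ℕ) : Hn G x0 n x0 = 1 := by
  classical
  unfold Hn
  rw [tsum_eq_single (SimpleGraph.Walk.nil : G.Walk x0 x0)]
  · rw [if_pos ⟨fun i hi => by simp at hi, by simp⟩, wt_nil]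
  · intro p hp
    cases p with
    | nil => exact absurd rfl hp
    | cons h p =>
      rw [if_neg]
      rintro ⟨H, _⟩
      exact (FH_cons h p).1 H |>.1 rfl

lemma Hn_zero (x0 x : X) (h : x ≠ x0) : Hn G x0 0 x = 0 := by
  classical
  unfold Hn
  rw [ENNReal.tsum_eq_zero]
  intro p
  rw [if_neg]
  rintro ⟨_, H⟩
  exact h (walk_length_zero p (by omega))

lemma Hn_succ (x0 x : X) (h : x ≠ x0) (n : ℕ) :
    Hn G x0 (n + 1) x = (G.degree x : ℝ≥0∞)⁻¹ * ∑ z ∈ G.neighborFinset x, Hn G x0 n z := by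
  classical
  unfold Hn
  rw [tsum_cons]
  · rw [← Finset.sum_attach (G.neighborFinset x), Finset.mul_sum]
    refine Finset.sum_congr rfl fun y _ => ?_
    rw [← ENNReal.tsum_mul_left]
    refine tsum_congr fun p => ?_
    rw [FH_cons, wt_cons, SimpleGraph.Walk.length_cons]
    by_cases hp : FH p ∧ p.length ≤ n
    · rw [if_pos hp, if_pos ⟨⟨h, hp.1⟩, by omega⟩]
    · rw [if_neg hp, if_neg, mul_zero]
      rintro ⟨⟨_, a⟩, b⟩
      exact hp ⟨a, by omega⟩
  · intro p hp
    exact absurd (walk_length_zero p hp) h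

lemma Hn_eq (x0 : X) (n : ℕ) (x : X) :
    Hn G x0 n x = ENNReal.ofReal (hitp G x0 Set.univ n x) := by
  induction n generalizing x with
  | zero =>
    by_cases h : x = x0
    · subst h; rw [Hn_root, hitp_root]; simp
    · rw [Hn_zero x0 x h]; simp [hitp, h]
  | succ n ih =>
    by_cases h : x = x0
    · subst h; rw [Hn_root, hitp_root]; simp
    · rw [Hn_succ x0 x h, hitp, if_neg h, if_pos (Set.mem_univ x)]
      simp_rw [ih]
      rcases Nat.eq_zero_or_pos (G.degree x) with h0 | h0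
      · have : G.neighborFinset x = ∅ := by
          rw [← Finset.card_eq_zero, G.card_neighborFinset_eq_degree]; exact h0
        rw [this]; simp
      · rw [← ENNReal.ofReal_sum_of_nonneg (fun z _ => hitp_nonneg _ _ _ _),
          ENNReal.ofReal_mul (by positivity)]
        congr 1
        rw [ENNReal.ofReal_inv_of_pos (by exact_mod_cast h0)]
        simp

lemma Hinf_eq (x0 x : X) : Hinf G x0 x = ENNReal.ofReal (hitv G x0 Set.univ x) := by
  classical
  apply le_antisymm
  · unfold Hinf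
    rw [ENNReal.tsum_eq_iSup_sum]
    refine iSup_le fun s => ?_
    set n := s.sup (fun p => p.length) with hn
    calc ∑ p ∈ s, (if FH p then wt p else 0)
        = ∑ p ∈ s, (if FH p ∧ p.length ≤ n then wt p else 0) := by
          refine Finset.sum_congr rfl fun p hp => ?_
          have : p.length ≤ n := Finset.le_sup (f := fun p : G.Walk x x0 => p.length) hp
          by_cases h : FH p
          · rw [if_pos h, if_pos ⟨h, this⟩]
          · rw [if_neg h, if_neg (fun H => h H.1)]
      _ ≤ Hn G x0 n x := ENNReal.sum_le_tsum s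
      _ = ENNReal.ofReal (hitp G x0 Set.univ n x) := Hn_eq x0 n x
      _ ≤ _ := ENNReal.ofReal_le_ofReal (hitp_le_hitv _ _ _ _)
  · have h1 : Tendsto (fun n => ENNReal.ofReal (hitp G x0 Set.univ n x)) atTop
        (𝓝 (ENNReal.ofReal (hitv G x0 Set.univ x))) :=
      ENNReal.tendsto_ofReal (hitp_tendsto x0 Set.univ x)
    refine le_of_tendsto' h1 fun n => ?_
    rw [← Hn_eq]
    unfold Hn Hinf
    refine ENNReal.tsum_le_tsum fun p => ?_
    by_cases h : FH p ∧ p.length ≤ n
    · rw [if_pos h, if_pos h.1]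
    · rw [if_neg h]; exact bot_le

/-- the first-return formula of the problem -/
noncomputable def ret (G : SimpleGraph X) [G.LocallyFinite] (x : X) : ℝ≥0∞ :=
  ∑' p : {p : G.Walk x x // 0 < p.length ∧ ∀ i : ℕ, 0 < i → i < p.length → p.getVert i ≠ x},
    ∏ i ∈ Finset.range p.1.length, ((G.degree (p.1.getVert i) : ENNReal))⁻¹

lemma ret_eq (x0 : X) : ret G x0 = (G.degree x0 : ℝ≥0∞)⁻¹ *
    ∑ z ∈ G.neighborFinset x0, ENNReal.ofReal (hitv G x0 Set.univ z) := by
  classical
  have h1 : ret G x0 = ∑' p : G.Walk x0 x0,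
      if (0 < p.length ∧ ∀ i : ℕ, 0 < i → i < p.length → p.getVert i ≠ x0) then wt p else 0 := by
    unfold ret
    rw [show (∑' p : {p : G.Walk x0 x0 // 0 < p.length ∧
      ∀ i : ℕ, 0 < i → i < p.length → p.getVert i ≠ x0},
      ∏ i ∈ Finset.range p.1.length, ((G.degree (p.1.getVert i) : ENNReal))⁻¹)
      = ∑' p : ({p : G.Walk x0 x0 | 0 < p.length ∧
      ∀ i : ℕ, 0 < i → i < p.length → p.getVert i ≠ x0} : Set (G.Walk x0 x0)), wt p.1 from rfl,
      _root_.tsum_subtype]
    refine tsum_congr fun p => ?_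
    rw [Set.indicator_apply]
    rfl
  rw [h1, tsum_cons]
  · rw [← Finset.sum_attach (G.neighborFinset x0), Finset.mul_sum]
    refine Finset.sum_congr rfl fun y _ => ?_
    rw [← Hinf_eq]
    unfold Hinf
    rw [← ENNReal.tsum_mul_left]
    refine tsum_congr fun p => ?_
    rw [wt_cons, SimpleGraph.Walk.length_cons]
    by_cases hp : FH p
    · rw [if_pos hp, if_pos]
      refine ⟨by omega, fun i h0 hi => ?_⟩
      obtain ⟨j, rfl⟩ : ∃ j, i = j + 1 := ⟨i - 1, by omega⟩
      rw [SimpleGraph.Walk.getVert_cons_succ]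
      exact hp j (by omega)
    · rw [if_neg hp, if_neg, mul_zero]
      rintro ⟨_, H⟩
      apply hp
      intro j hj
      have := H (j + 1) (by omega) (by omega)
      rwa [SimpleGraph.Walk.getVert_cons_succ] at this
  · intro p hp
    rw [if_neg]
    rintro ⟨H, _⟩
    omega

lemma ret_eq_one_iff (x0 : X) (h0 : 0 < G.degree x0) :
    ret G x0 = 1 ↔ ∀ z ∈ G.neighborFinset x0, hitv G x0 Set.univ z = 1 := by
  rw [ret_eq, ← ENNReal.ofReal_sum_of_nonneg (fun z _ => hitv_nonneg _ _ _)]
  have hd : (0 : ℝ) < G.degree x0 := by exact_mod_cast h0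
  have e1 : (G.degree x0 : ℝ≥0∞)⁻¹ = ENNReal.ofReal ((G.degree x0 : ℝ)⁻¹) := by
    rw [ENNReal.ofReal_inv_of_pos hd]; simp
  rw [e1, ← ENNReal.ofReal_mul (by positivity), ENNReal.ofReal_eq_one]
  have e2 : (G.degree x0 : ℝ) = ∑ z ∈ G.neighborFinset x0, (1 : ℝ) := by simp
  rw [inv_mul_eq_one₀ hd.ne', e2, eq_comm]
  constructor
  · intro H
    exact (Finset.sum_eq_sum_iff_of_le (fun z _ => hitv_le_one x0 Set.univ z)).1 H
  · intro H
    exact Finset.sum_congr rfl H

end Pool.Agent.Helper41.Wob
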