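import Pool.Agent.Helper41.Wob4

set_option autoImplicit false

namespace Pool.Agent.Helper41.Wob

open Finset

variable {X : Type*} {G : SimpleGraph X} [G.LocallyFinite]

/-- greedy colouring of the square of a bounded degree graph -/
lemma exists_coloring (D : ℕ) (hD : ∀ x, G.degree x ≤ D) :
    ∃ (K : ℕ) (c : X → Fin K), (∀ x y, G.Adj x y → c x ≠ c y) ∧
      (∀ x y z, G.Adj z x → G.Adj z y → x ≠ y → c x ≠ c y) := by
  classical
  set M := (D + 1) ^ 2 with hM
  have wf : WellFounded (WellOrderingRel : X → X → Prop) := IsWellFounded.wf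
  set c : X → ℕ := wf.fix (fun x ih =>
    sInf {k : ℕ | ∀ y (hy : WellOrderingRel y x), y ∈ ballF G 2 x → ih y hy ≠ k}) with hc
  have hcx : ∀ x, c x = sInf {k : ℕ | ∀ y, WellOrderingRel y x → y ∈ ballF G 2 x → c y ≠ k} := by
    intro x
    rw [hc, wf.fix_eq]
  have hne : ∀ x, ∃ k ≤ M, k ∈ {k : ℕ | ∀ y, WellOrderingRel y x → y ∈ ballF G 2 x → c y ≠ k} := by
    intro x
    by_contra hcon
    push Not at hcon
    have h1 : Finset.range (M + 1) ⊆ (ballF G 2 x).image c := by
      intro k hk
      have := hcon k (by simpa [Nat.lt_succ_iff] using hk)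
      simp only [Set.mem_setOf_eq, not_forall] at this
      obtain ⟨y, _, hy2, hy3⟩ := this
      rw [Finset.mem_image]
      exact ⟨y, hy2, not_not.1 hy3⟩
    have h2 := Finset.card_le_card h1
    have h3 : ((ballF G 2 x).image c).card ≤ M :=
      Finset.card_image_le.trans (ballF_card D hD 2 x)
    rw [Finset.card_range] at h2
    omega
  have hcle : ∀ x, c x < M + 1 := by
    intro x
    obtain ⟨k, hk, hk2⟩ := hne x
    rw [hcx]
    exact Nat.lt_succ_of_le ((Nat.sInf_le hk2).trans hk)
  have hcmem : ∀ x y, WellOrderingRel y x → y ∈ ballF G 2 x → c y ≠ c x := by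
    intro x
    obtain ⟨k, _, hk2⟩ := hne x
    have := Nat.sInf_mem (⟨k, hk2⟩ : Set.Nonempty _)
    rw [← hcx] at this
    exact this
  have hdiff : ∀ x y, x ≠ y → y ∈ ballF G 2 x → x ∈ ballF G 2 y → c x ≠ c y := by
    intro x y hxy h1 h2
    rcases trichotomous_of (WellOrderingRel : X → X → Prop) x y with h | h | h
    · exact hcmem y x h h2
    · exact absurd h hxy
    · exact (hcmem x y h h1).symm
  refine ⟨M + 1, fun x => ⟨c x, hcle x⟩, ?_, ?_⟩
  · intro x y h heq
    have heq' : c x = c y := by simpa using heq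
    refine hdiff x y h.ne ?_ ?_ heq'
    · exact ballF_walk (SimpleGraph.Walk.cons h SimpleGraph.Walk.nil) 2 (by simp)
    · exact ballF_walk (SimpleGraph.Walk.cons h.symm SimpleGraph.Walk.nil) 2 (by simp)
  · intro x y z hx hy hxy heq
    have heq' : c x = c y := by simpa using heq
    refine hdiff x y hxy ?_ ?_ heq'
    · exact ballF_walk (SimpleGraph.Walk.cons hx.symm (SimpleGraph.Walk.cons hy
        SimpleGraph.Walk.nil)) 2 (by simp)
    · exact ballF_walk (SimpleGraph.Walk.cons hy.symm (SimpleGraph.Walk.cons hx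
        SimpleGraph.Walk.nil)) 2 (by simp)

theorem exists_tau (D : ℕ) (hD : ∀ x, G.degree x ≤ D) :
    ∃ (K : ℕ) (τ : Fin K × Fin K → X → X) (o : Fin K × Fin K → X → ZMod 2),
      (∀ s x, τ s (τ s x) = x) ∧ (∀ s x, τ s x = x ∨ G.Adj x (τ s x)) ∧
      (∀ s x, τ s x ≠ x → o s (τ s x) ≠ o s x) ∧
      ∀ (x : X) (F : X → ℝ), F x = 0 → ∑ s, F (τ s x) = 2 * ∑ y ∈ G.neighborFinset x, F y := by
  classical
  obtain ⟨K, c, hc1, hc2⟩ := exists_coloring (G := G) D hD
  set nb : Fin K → X → X := fun k x => if h : ∃ y, G.Adj x y ∧ c y = k then h.choose else x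
    with hnb
  have nb1 : ∀ k x y, G.Adj x y → c y = k → nb k x = y := by
    intro k x y hxy hy
    have h : ∃ y, G.Adj x y ∧ c y = k := ⟨y, hxy, hy⟩
    simp only [hnb]
    rw [dif_pos h]
    by_contra hne
    exact hc2 _ _ x h.choose_spec.1 hxy hne (h.choose_spec.2.trans hy.symm)
  have nb2 : ∀ k x, (¬ ∃ y, G.Adj x y ∧ c y = k) → nb k x = x := by
    intro k x h
    simp only [hnb]
    rw [dif_neg h]
  have nb3 : ∀ x, nb (c x) x = x := by
    intro x
    refine nb2 _ _ ?_
    rintro ⟨y, h1, h2⟩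
    exact hc1 x y h1 h2.symm
  set τ : Fin K × Fin K → X → X := fun s x =>
    if c x = s.1 then nb s.2 x else if c x = s.2 then nb s.1 x else x with hτdef
  -- key case analysis
  have key : ∀ s x, τ s x = x ∨ (G.Adj x (τ s x) ∧ ((c x = s.1 ∧ c (τ s x) = s.2) ∨
      (c x ≠ s.1 ∧ c x = s.2 ∧ c (τ s x) = s.1))) := by
    intro s x
    simp only [hτdef]
    by_cases h1 : c x = s.1
    · rw [if_pos h1]
      by_cases h : ∃ y, G.Adj x y ∧ c y = s.2
      · obtain ⟨y, hy1, hy2⟩ := h
        rw [nb1 s.2 x y hy1 hy2]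
        exact Or.inr ⟨hy1, Or.inl ⟨h1, hy2⟩⟩
      · exact Or.inl (nb2 _ _ h)
    · rw [if_neg h1]
      by_cases h2 : c x = s.2
      · rw [if_pos h2]
        by_cases h : ∃ y, G.Adj x y ∧ c y = s.1
        · obtain ⟨y, hy1, hy2⟩ := h
          rw [nb1 s.1 x y hy1 hy2]
          exact Or.inr ⟨hy1, Or.inr ⟨h1, h2, hy2⟩⟩
        · exact Or.inl (nb2 _ _ h)
      · rw [if_neg h2]; exact Or.inl rfl
  refine ⟨K, τ, fun s x => if c x = s.1 then 1 else 0, ?_, ?_, ?_, ?_⟩
  · intro s x
    rcases key s x with h | ⟨hadj, ⟨h1, h2⟩ | ⟨h1, h2, h3⟩⟩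
    · rw [h, h]
    · set y := τ s x with hy
      have hne : c y ≠ s.1 := by
        rw [← h1]; exact fun H => hc1 x y hadj H.symm
      have : τ s y = nb s.1 y := by simp only [hτdef]; rw [if_neg hne, if_pos h2]
      rw [this]
      exact nb1 s.1 y x hadj.symm h1
    · set y := τ s x with hy
      have : τ s y = nb s.2 y := by simp only [hτdef]; rw [if_pos h3]
      rw [this]
      exact nb1 s.2 y x hadj.symm h2
  · intro s x
    rcases key s x with h | ⟨hadj, _⟩
    · exact Or.inl h
    · exact Or.inr hadj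
  · intro s x hne
    rcases key s x with h | ⟨hadj, ⟨h1, h2⟩ | ⟨h1, h2, h3⟩⟩
    · exact absurd h hne
    · have h4 : c (τ s x) ≠ s.1 := by
        rw [← h1]; exact fun H => hc1 x _ hadj H.symm
      simp only
      rw [if_neg h4, if_pos h1]; decide
    · simp only
      rw [if_pos h3, if_neg h1]; decide
  · intro x F hF
    have h1 : ∑ b, F (nb b x) = ∑ y ∈ G.neighborFinset x, F y := by
      rw [← Finset.sum_fiberwise (G.neighborFinset x) c F]
      refine Finset.sum_congr rfl fun b _ => ?_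
      by_cases h : ∃ y, G.Adj x y ∧ c y = b
      · obtain ⟨y, hy1, hy2⟩ := h
        rw [nb1 b x y hy1 hy2]
        rw [Finset.sum_eq_single_of_mem y (by simp [hy1, hy2])]
        intro z hz hzy
        rw [Finset.mem_filter, SimpleGraph.mem_neighborFinset] at hz
        exact absurd (hz.2.trans hy2.symm) (hc2 z y x hz.1 hy1 hzy)
      · rw [nb2 b x h, hF]
        symm
        refine Finset.sum_eq_zero fun z hz => ?_
        rw [Finset.mem_filter, SimpleGraph.mem_neighborFinset] at hz
        exact absurd ⟨z, hz.1, hz.2⟩ h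
    rw [Fintype.sum_prod_type]
    have h2 : ∀ a, ∑ b, F (τ (a, b) x) = if c x = a then ∑ b, F (nb b x) else F (nb a x) := by
      intro a
      by_cases h : c x = a
      · rw [if_pos h]
        refine Finset.sum_congr rfl fun b _ => ?_
        simp only [hτdef]; rw [if_pos h]
      · rw [if_neg h, Finset.sum_eq_single (c x)]
        · simp only [hτdef]; rw [if_neg h]; simp
        · intro b _ hb
          simp only [hτdef]; rw [if_neg h, if_neg (fun H => hb H.symm), hF]
        · simp
    simp_rw [h2]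
    have h3 : ∀ a, (if c x = a then ∑ b, F (nb b x) else F (nb a x))
        = (if a = c x then ∑ b, F (nb b x) else 0) + F (nb a x) := by
      intro a
      by_cases h : c x = a
      · rw [if_pos h, if_pos h.symm, ← h, nb3 x, hF, add_zero]
      · rw [if_neg h, if_neg (fun H => h H.symm), zero_add]
    simp_rw [h3]
    rw [Finset.sum_add_distrib, Finset.sum_ite_eq' Finset.univ (c x), if_pos (Finset.mem_univ _),
      h1]
    ring

end Pool.Agent.Helper41.Wob
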