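import Pool.Agent.Helper41.Wob3
import Pool.Agent.Helper41.Wob6

set_option autoImplicit false

namespace Pool.Agent.Helper41.Wob

open Finset

/-- defect of invariance of `f` under `e` -/
noncomputable def Dd {C : Type*} (f : C → ℝ) (e : C → C) : ℝ := ∑' h, (f (e h) - f h) ^ 2

section defect

variable {C : Type*}

lemma summ_diff (f : C → ℝ) (hf : Summable fun h => f h ^ 2) (e : Equiv.Perm C) :
    Summable fun h => (f (e h) - f h) ^ 2 := by
  have h1 : Summable fun h => 2 * f (e h) ^ 2 + 2 * f h ^ 2 :=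
    ((e.summable_iff.2 hf).mul_left 2).add (hf.mul_left 2)
  refine Summable.of_nonneg_of_le (fun _ => sq_nonneg _) (fun h => ?_) h1
  nlinarith [sq_nonneg (f (e h) + f h)]

lemma Dd_nonneg (f : C → ℝ) (e : C → C) : 0 ≤ Dd f e := tsum_nonneg fun _ => sq_nonneg _

/-- cutting off to a finite set -/
lemma Dd_cut (f : C → ℝ) (hf : HasSum (fun h => f h ^ 2) 1) (e : Equiv.Perm C) (S : Finset C)
    [DecidablePred (· ∈ S)]
    (ε : ℝ) (hS : 1 - ε ≤ ∑ h ∈ S, f h ^ 2) :
    Dd (fun h => if h ∈ S then f h else 0) e ≤ 3 * Dd f e + 6 * ε := by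
  set f' : C → ℝ := fun h => if h ∈ S then f h else 0 with hf'
  have hs := hf.summable
  have h1 : HasSum (fun h => f' h ^ 2) (∑ h ∈ S, f h ^ 2) := by
    have : ∀ h ∉ S, f' h ^ 2 = 0 := by intro h hh; simp [hf', hh]
    have h2 : HasSum (fun h => f' h ^ 2) (∑ h ∈ S, f' h ^ 2) :=
      hasSum_sum_of_ne_finset_zero this
    convert h2 using 1
    refine Finset.sum_congr rfl fun h hh => ?_
    simp [hf', hh]
  have h2 : HasSum (fun h => (f' h - f h) ^ 2) (1 - ∑ h ∈ S, f h ^ 2) := by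
    have := hf.sub h1
    have e : (fun h => (f' h - f h) ^ 2) = fun h => f h ^ 2 - f' h ^ 2 := by
      funext h
      have e : f' h = if h ∈ S then f h else 0 := rfl
      rw [e]
      split_ifs <;> ring
    rw [e]; exact this
  have hd : Summable fun h => (f' h - f h) ^ 2 := h2.summable
  have hde : Summable fun h => (f' (e h) - f (e h)) ^ 2 := e.summable_iff.2 hd
  have hte : ∑' h, (f' (e h) - f (e h)) ^ 2 = 1 - ∑ h ∈ S, f h ^ 2 := by
    rw [Equiv.tsum_eq e (fun h => (f' h - f h) ^ 2), h2.tsum_eq]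
  have h3 : ∀ h, (f' (e h) - f' h) ^ 2 ≤ 3 * (f (e h) - f h) ^ 2 +
      3 * (f' (e h) - f (e h)) ^ 2 + 3 * (f' h - f h) ^ 2 := by
    intro h
    nlinarith [sq_nonneg ((f (e h) - f h) - (f' (e h) - f (e h))),
      sq_nonneg ((f (e h) - f h) + (f' h - f h)), sq_nonneg ((f' (e h) - f (e h)) + (f' h - f h))]
  have hsum : Summable fun h => 3 * (f (e h) - f h) ^ 2 +
      3 * (f' (e h) - f (e h)) ^ 2 + 3 * (f' h - f h) ^ 2 :=
    (((summ_diff f hs e).mul_left 3).add (hde.mul_left 3)).add (hd.mul_left 3)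
  calc Dd f' e = ∑' h, (f' (e h) - f' h) ^ 2 := rfl
    _ ≤ ∑' h, (3 * (f (e h) - f h) ^ 2 +
      3 * (f' (e h) - f (e h)) ^ 2 + 3 * (f' h - f h) ^ 2) :=
        Summable.tsum_le_tsum h3 (summ_diff f' h1.summable e) hsum
    _ = 3 * Dd f e + 3 * (1 - ∑ h ∈ S, f h ^ 2) + 3 * (1 - ∑ h ∈ S, f h ^ 2) := by
        rw [Summable.tsum_add (((summ_diff f hs e).mul_left 3).add (hde.mul_left 3))
          (hd.mul_left 3), Summable.tsum_add ((summ_diff f hs e).mul_left 3) (hde.mul_left 3),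
          tsum_mul_left, tsum_mul_left, tsum_mul_left, hte, h2.tsum_eq]
        rfl
    _ ≤ _ := by linarith

end defect

variable {X : Type*}

open Classical in
/-- extension of a configuration on `B` by zero -/
noncomputable def ext (B : Finset X) (a : ↥B → ZMod 2) : X →₀ ZMod 2 :=
  Finsupp.onFinset B (fun x => if h : x ∈ B then a ⟨x, h⟩ else 0) (by
    intro x hx
    by_contra h
    simp [h] at hx)

lemma ext_mem (B : Finset X) (a : ↥B → ZMod 2) (x : X) (h : x ∈ B) : ext B a x = a ⟨x, h⟩ := by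
  simp [ext, h]

lemma ext_not_mem (B : Finset X) (a : ↥B → ZMod 2) (x : X) (h : x ∉ B) : ext B a x = 0 := by
  simp [ext, h]

lemma ext_inj (B : Finset X) : Function.Injective (ext B) := by
  intro a b h
  funext i
  have := congrArg (fun c : X →₀ ZMod 2 => c i.1) h
  simp only [ext_mem B _ i.1 i.2] at this
  exact this

lemma ext_range (B : Finset X) (h : X →₀ ZMod 2) (hh : h.support ⊆ B) :
    ext B (fun i => h i.1) = h := by
  ext x
  by_cases hx : x ∈ B
  · rw [ext_mem B _ x hx]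
  · rw [ext_not_mem B _ x hx]
    symm
    by_contra hne
    exact hx (hh (Finsupp.mem_support_iff.2 hne))

open Classical in
/-- restriction of an involution to a finite set -/
noncomputable def resI (B : Finset X) (τ : X → X) (i : ↥B) : ↥B :=
  if h : τ i.1 ∈ B then ⟨τ i.1, h⟩ else i

lemma resI_invol (B : Finset X) (τ : X → X) (hτ : ∀ x, τ (τ x) = x) (i : ↥B) :
    resI B τ (resI B τ i) = i := by
  unfold resI
  by_cases h : τ i.1 ∈ B
  · simp [h, hτ]
  · simp [h]

open Classical in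
/-- extension of the driving field -/
noncomputable def extq (B : Finset X) (τ : X → X) (q : ↥B → ZMod 2) (x : X) : ZMod 2 :=
  if h : x ∈ B ∧ τ x ∈ B then q ⟨x, h.1⟩ else 0

lemma swp_ext (B : Finset X) (τ : X → X) (hτ : ∀ x, τ (τ x) = x) (q : ↥B → ZMod 2) (i : ↥B) :
    swp τ (extq B τ q) i.1 = (swp (resI B τ) q i).1 := by
  by_cases h : τ i.1 ∈ B
  · have h1 : resI B τ i = ⟨τ i.1, h⟩ := by simp [resI, h]
    have h2 : extq B τ q i.1 = q i := by simp [extq, h]
    have h3 : extq B τ q (τ i.1) = q ⟨τ i.1, h⟩ := by simp [extq, h, hτ]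
    unfold swp
    rw [h1, h2, h3]
    split_ifs <;> rfl
  · have h1 : resI B τ i = i := by simp [resI, h]
    have h2 : extq B τ q i.1 = 0 := by simp [extq, h]
    have h3 : extq B τ q (τ i.1) = 0 := by simp [extq, h]
    unfold swp
    rw [h1, h2, h3]
    simp

lemma swp_ext_off (B : Finset X) (τ : X → X) (hτ : ∀ x, τ (τ x) = x) (q : ↥B → ZMod 2) (x : X)
    (hx : x ∉ B) : swp τ (extq B τ q) x = x := by
  have h2 : extq B τ q x = 0 := by simp [extq, hx]
  have h3 : extq B τ q (τ x) = 0 := by simp [extq, hτ, hx]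
  unfold swp
  rw [h2, h3]; simp

lemma ext_swp (B : Finset X) (τ : X → X) (hτ : ∀ x, τ (τ x) = x) (q : ↥B → ZMod 2)
    (a : ↥B → ZMod 2) :
    ext B (a ∘ swp (resI B τ) q) =
      Finsupp.equivMapDomain (swpPerm τ hτ (extq B τ q)) (ext B a) := by
  ext x
  rw [Finsupp.equivMapDomain_apply]
  have e : (swpPerm τ hτ (extq B τ q)).symm x = swp τ (extq B τ q) x := rfl
  rw [e]
  by_cases hx : x ∈ B
  · rw [ext_mem B _ x hx, swp_ext B τ hτ q ⟨x, hx⟩, ext_mem B _ _ (swp (resI B τ) q ⟨x, hx⟩).2]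
    rfl
  · rw [ext_not_mem B _ x hx, swp_ext_off B τ hτ q x hx, ext_not_mem B _ x hx]

lemma ext_add (B : Finset X) [DecidableEq ↥B] (x0 : X) (h0 : x0 ∈ B) (a : ↥B → ZMod 2) :
    ext B (Pi.single ⟨x0, h0⟩ 1 + a) = Finsupp.single x0 1 + ext B a := by
  classical
  ext x
  rw [Finsupp.add_apply]
  by_cases hx : x ∈ B
  · rw [ext_mem B _ x hx, ext_mem B _ x hx, Pi.add_apply]
    congr 1
    by_cases h : x = x0
    · subst h; simp
    · rw [Pi.single_eq_of_ne (fun H => h (by simpa using H)), Finsupp.single_eq_of_ne h]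
  · have : x ≠ x0 := fun h => hx (h ▸ h0)
    rw [ext_not_mem B _ x hx, ext_not_mem B _ x hx, Finsupp.single_eq_of_ne this]
    simp

/-- the configuration permutation induced by a permutation -/
def cperm (σ : Equiv.Perm X) : Equiv.Perm (X →₀ ZMod 2) := Finsupp.equivCongrLeft σ

lemma cperm_apply (σ : Equiv.Perm X) (h : X →₀ ZMod 2) :
    cperm σ h = Finsupp.equivMapDomain σ h := rfl

lemma sum_ext_le (B : Finset X) [DecidableEq ↥B] (Φ : (X →₀ ZMod 2) → ℝ) (h0 : ∀ h, 0 ≤ Φ h) (hs : Summable Φ) :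
    ∑ a : ↥B → ZMod 2, Φ (ext B a) ≤ ∑' h, Φ h := by
  classical
  have : ∑ a : ↥B → ZMod 2, Φ (ext B a)
      = ∑ h ∈ Finset.univ.map ⟨ext B, ext_inj B⟩, Φ h := by
    rw [Finset.sum_map]; rfl
  rw [this]
  exact Summable.sum_le_tsum _ (fun h _ => h0 h) hs

end Pool.Agent.Helper41.Wob
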