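import Pool.Agent.Helper41.Wob7

set_option autoImplicit false

namespace Pool.Agent.Helper41.Wob

open Finset

variable {X : Type*} {G : SimpleGraph X} [G.LocallyFinite]

lemma const_choice (m K : ℝ) (hm : 0 ≤ m) (hK : 0 ≤ K) :
    ∃ T η : ℝ, 0 < T ∧ 0 < η ∧ η ≤ 1 ∧
      m * (η * T) + (2 + m * T) * (m * (2 * K / T ^ 2 + 2 * η)) ≤ 1 / 4 := by
  set T : ℝ := 1 + 16 * ((2 + m) * (m * K)) with hT
  have hmK : 0 ≤ (2 + m) * (m * K) := by positivity
  have hT1 : 1 ≤ T := by linarith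
  have hT0 : 0 < T := by linarith
  set A : ℝ := m * T + 2 * m * (2 + m * T) + 1 with hA
  have hmT : 0 ≤ m * T := by positivity
  have hA1 : 1 ≤ A := by
    have : 0 ≤ 2 * m * (2 + m * T) := by positivity
    linarith
  have hA0 : 0 < A := by linarith
  refine ⟨T, 1 / (8 * A), hT0, by positivity, ?_, ?_⟩
  · rw [div_le_one (by positivity)]; linarith
  · have e1 : m * (1 / (8 * A) * T) + (2 + m * T) * (m * (2 * K / T ^ 2 + 2 * (1 / (8 * A))))
        = (A - 1) * (1 / (8 * A)) + (2 + m * T) * (m * (2 * K / T ^ 2)) := by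
      simp only [hA]; ring
    rw [e1]
    have e2 : (A - 1) * (1 / (8 * A)) ≤ 1 / 8 := by
      rw [mul_one_div, div_le_div_iff₀ (by positivity) (by norm_num)]
      linarith
    have e3 : (2 + m * T) * (m * (2 * K / T ^ 2)) ≤ 1 / 8 := by
      have e4 : (2 + m * T) * (m * (2 * K / T ^ 2)) ≤ ((2 + m) * T) * (m * (2 * K / T ^ 2)) := by
        refine mul_le_mul_of_nonneg_right ?_ (by positivity)
        nlinarith
      have e5 : ((2 + m) * T) * (m * (2 * K / T ^ 2)) = 2 * ((2 + m) * (m * K)) / T := by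
        field_simp
      rw [e5] at e4
      refine e4.trans ?_
      rw [div_le_iff₀ hT0]
      linarith
    linarith

theorem gap (x0 : X) (hd : 0 < G.degree x0)
    (htr : ∃ z ∈ G.neighborFinset x0, hitv G x0 Set.univ z ≠ 1)
    {J : Type*} [Fintype J] (τ : J → X → X) (hτ : ∀ s x, τ s (τ s x) = x)
    (hadj : ∀ s x, τ s x = x ∨ G.Adj x (τ s x)) (o : J → X → ZMod 2)
    (ho : ∀ s x, τ s x ≠ x → o s (τ s x) ≠ o s x)
    (hsum : ∀ (x : X) (F : X → ℝ), F x = 0 → ∑ s, F (τ s x) = 2 * ∑ y ∈ G.neighborFinset x, F y) :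
    ∃ δ > 0, ∀ f : (X →₀ ZMod 2) → ℝ, HasSum (fun h => f h ^ 2) 1 →
      (∀ s q, Dd f (cperm (swpPerm (τ s) (hτ s) q)) ≤ δ) →
      Dd f (fun h => Finsupp.single x0 1 + h) ≤ δ → False := by
  classical
  set κ0 : ℝ := ∑ z ∈ G.neighborFinset x0, (1 - hitv G x0 Set.univ z) with hκ0
  have hκ0pos : 0 < κ0 := by
    obtain ⟨z, hz, hz1⟩ := htr
    refine Finset.sum_pos' (fun z _ => sub_nonneg.2 (hitv_le_one _ _ _)) ⟨z, hz, ?_⟩
    exact sub_pos.2 (lt_of_le_of_ne (hitv_le_one _ _ _) hz1)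
  obtain ⟨T, η, hT, hη, hη1, hconst⟩ := const_choice (Fintype.card J : ℝ) (1 / κ0)
    (by positivity) (by positivity)
  refine ⟨η ^ 2 / 12, by positivity, fun f hf hswp htrn => ?_⟩
  -- cut-off
  set ε : ℝ := η ^ 2 / 24 with hε
  have hε0 : 0 < ε := by positivity
  have hε1 : ε ≤ 1 / 24 := by
    have : η ^ 2 ≤ 1 := pow_le_one₀ hη.le hη1
    simp only [hε]; linarith
  obtain ⟨S, hS⟩ : ∃ S : Finset (X →₀ ZMod 2), 1 - ε ≤ ∑ h ∈ S, f h ^ 2 := by
    have := hf.eventually (lt_mem_nhds (show 1 - ε < 1 by linarith))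
    obtain ⟨S, hS⟩ := this.exists
    exact ⟨S, le_of_lt hS⟩
  set f' : (X →₀ ZMod 2) → ℝ := fun h => if h ∈ S then f h else 0 with hf'
  have hcut : ∀ e : Equiv.Perm (X →₀ ZMod 2), Dd f e ≤ η ^ 2 / 12 → Dd f' e ≤ η ^ 2 / 2 := by
    intro e he
    have := Dd_cut f hf e S ε hS
    calc Dd f' e ≤ 3 * Dd f e + 6 * ε := this
      _ ≤ 3 * (η ^ 2 / 12) + 6 * (η ^ 2 / 24) := by rw [hε]; linarith
      _ = _ := by ring
  -- finite sets
  set B0 : Finset X := insert x0 (S.biUnion fun h => h.support) with hB0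
  set B : Finset X := B0 ∪ B0.biUnion (fun x => G.neighborFinset x) with hB
  have hx0B0 : x0 ∈ B0 := by simp [hB0]
  have hB0B : ∀ x ∈ B0, x ∈ B := fun x hx => Finset.mem_union_left _ hx
  have hNB : ∀ x ∈ B0, ∀ s, τ s x ∈ B := by
    intro x hx s
    rcases hadj s x with h | h
    · rw [h]; exact hB0B x hx
    · exact Finset.mem_union_right _ (Finset.mem_biUnion.2 ⟨x, hx, by simpa using h⟩)
  have hsupp : ∀ h ∈ S, h.support ⊆ B0 := fun h hh =>
    (Finset.subset_biUnion_of_mem (fun h : X →₀ ZMod 2 => h.support) hh).trans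
      (Finset.subset_insert _ _)
  have hx0B : x0 ∈ B := hB0B x0 hx0B0
  -- Dirichlet solution
  set v : X → ℝ := hitv G x0 (↑B0 : Set X) with hv
  set κ : ℝ := ∑ z ∈ G.neighborFinset x0, (1 - v z) with hκ
  have hκκ0 : κ0 ≤ κ := Finset.sum_le_sum fun z _ =>
    sub_le_sub_left (hitv_le_univ x0 _ z) 1
  have hκpos : 0 < κ := lt_of_lt_of_le hκ0pos hκκ0
  set u : ↥B → ℝ := fun i => v i.1 / κ with hu
  set τI : J → ↥B → ↥B := fun s => resI B (τ s) with hτI
  have hτIτ : ∀ s (i : ↥B), i.1 ∈ B0 → (τI s i).1 = τ s i.1 := by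
    intro s i hi
    simp only [hτI, resI]
    rw [dif_pos (hNB i.1 hi s)]
  have hsumI : ∀ i : ↥B, i.1 ∈ B0 → ∑ s, (u i - u (τI s i))
      = 2 / κ * ∑ y ∈ G.neighborFinset i.1, (v i.1 - v y) := by
    intro i hi
    have h1 : ∑ s, (u i - u (τI s i)) = ∑ s, (v i.1 - v (τ s i.1)) / κ := by
      refine Finset.sum_congr rfl fun s _ => ?_
      simp only [hu]
      rw [hτIτ s i hi, sub_div]
    rw [h1, ← Finset.sum_div, hsum i.1 (fun y => v i.1 - v y) (sub_self _)]
    ring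
  have hI0 : ∑ s, (u ⟨x0, hx0B⟩ - u (τI s ⟨x0, hx0B⟩)) = 2 := by
    rw [hsumI ⟨x0, hx0B⟩ hx0B0]
    have : ∑ y ∈ G.neighborFinset x0, (v x0 - v y) = κ := by
      rw [hκ]
      refine Finset.sum_congr rfl fun y _ => ?_
      rw [hv, hitv_root]
    simp only [this]
    field_simp
  have hIin : ∀ i : ↥B, i ≠ ⟨x0, hx0B⟩ → i.1 ∈ B0 → ∑ s, (u i - u (τI s i)) = 0 := by
    intro i hne hi
    rw [hsumI i hi]
    have hne' : i.1 ≠ x0 := fun h => hne (Subtype.ext h)
    rw [hv, hitv_harm' x0 _ i.1 hne' (by exact_mod_cast hi), mul_zero]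
  have huout : ∀ i : ↥B, i.1 ∉ B0 → u i = 0 := by
    intro i hi
    have hne' : i.1 ≠ x0 := fun h => hi (h ▸ hx0B0)
    simp only [hu, hv]
    rw [hitv_off x0 _ i.1 hne' (by exact_mod_cast hi), zero_div]
  have hu0 : ∀ i, 0 ≤ u i := fun i => div_nonneg (hitv_nonneg _ _ _) hκpos.le
  -- the restricted function
  set g : (↥B → ZMod 2) → ℝ := fun a => f' (ext B a) with hg
  have hgS : ∑ a, g a ^ 2 = ∑ h ∈ S, f h ^ 2 := by
    have e1 : ∑ a, g a ^ 2 = ∑' h, f' h ^ 2 := by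
      rw [← (ext_inj B).tsum_eq (f := fun h => f' h ^ 2), tsum_fintype]
      intro h hh
      have : h ∈ S := by
        by_contra hn
        apply hh
        simp [hf', hn]
      exact ⟨fun i => h i.1, ext_range B h ((hsupp h this).trans hB0B)⟩
    rw [e1, tsum_eq_sum (s := S)]
    · refine Finset.sum_congr rfl fun h hh => ?_
      simp [hf', hh]
    · intro h hh; simp [hf', hh]
  have hgpos : 1 / 2 ≤ ∑ a, g a ^ 2 := by rw [hgS]; linarith
  have hsummf' : Summable fun h => f' h ^ 2 := by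
    refine summable_of_ne_finset_zero (s := S) fun h hh => ?_
    simp [hf', hh]
  have hclose : ∀ s q, ∑ a, (g (a ∘ swp (τI s) q) - g a) ^ 2 ≤ η ^ 2 * ∑ a, g a ^ 2 := by
    intro s q
    set e := cperm (swpPerm (τ s) (hτ s) (extq B (τ s) q)) with he
    have h1 : ∑ a, (g (a ∘ swp (τI s) q) - g a) ^ 2
        = ∑ a : ↥B → ZMod 2, (fun h => (f' (e h) - f' h) ^ 2) (ext B a) := by
      refine Finset.sum_congr rfl fun a _ => ?_
      simp only [hg, hτI]
      rw [ext_swp B (τ s) (hτ s) q a]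
      rfl
    rw [h1]
    have h2 := sum_ext_le B (fun h => (f' (e h) - f' h) ^ 2) (fun _ => sq_nonneg _)
      (summ_diff f' hsummf' e)
    have h3 : Dd f' e ≤ η ^ 2 / 2 := hcut e (hswp s _)
    calc _ ≤ Dd f' e := h2
      _ ≤ η ^ 2 / 2 := h3
      _ ≤ η ^ 2 * ∑ a, g a ^ 2 := by nlinarith [sq_nonneg η]
  have hcloseτ : ∀ s, ∑ a, (g (a ∘ τI s) - g a) ^ 2 ≤ η ^ 2 * ∑ a, g a ^ 2 := by
    intro s
    have h1 : swp (τI s) (fun i => o s i.1) = τI s := by
      funext i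
      unfold swp
      by_cases hi : τI s i = i
      · rw [hi, if_pos rfl]
      · rw [if_neg]
        intro H
        by_cases hB' : τ s i.1 ∈ B
        · have e1 : (τI s i).1 = τ s i.1 := by simp only [hτI, resI]; rw [dif_pos hB']
          have e2 : τ s i.1 ≠ i.1 := by
            intro e3; exact hi (Subtype.ext (e1.trans e3))
          simp only [e1] at H
          exact ho s i.1 e2 H.symm
        · apply hi
          simp only [hτI, resI]; rw [dif_neg hB']
    have := hclose s (fun i => o s i.1)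
    rwa [h1] at this
  have htrans : ∑ a, (g (Pi.single ⟨x0, hx0B⟩ 1 + a) - g a) ^ 2 ≤ 1 * ∑ a, g a ^ 2 := by
    set e : Equiv.Perm (X →₀ ZMod 2) := Equiv.addLeft (Finsupp.single x0 1) with he
    have h1 : ∑ a, (g (Pi.single ⟨x0, hx0B⟩ 1 + a) - g a) ^ 2
        = ∑ a : ↥B → ZMod 2, (fun h => (f' (e h) - f' h) ^ 2) (ext B a) := by
      refine Finset.sum_congr rfl fun a _ => ?_
      simp only [hg]
      rw [ext_add B x0 hx0B a]
      rfl
    rw [h1]
    have h2 := sum_ext_le B (fun h => (f' (e h) - f' h) ^ 2) (fun _ => sq_nonneg _)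
      (summ_diff f' hsummf' e)
    have h3 : Dd f' e ≤ η ^ 2 / 2 := hcut e htrn
    have h4 : η ^ 2 ≤ 1 := pow_le_one₀ hη.le hη1
    calc _ ≤ Dd f' e := h2
      _ ≤ η ^ 2 / 2 := h3
      _ ≤ 1 * ∑ a, g a ^ 2 := by linarith
  have hfinal := core τI (fun s i => resI_invol B (τ s) (hτ s) i) u ⟨x0, hx0B⟩ hI0
    (by
      intro i hi
      by_cases h : i.1 ∈ B0
      · exact (hIin i hi h).le
      · refine Finset.sum_nonpos fun s _ => ?_
        rw [huout i h, zero_sub]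
        exact neg_nonpos.2 (hu0 _))
    (by
      intro i hi
      by_cases h : i.1 ∈ B0
      · rw [hIin i hi h, mul_zero]
      · rw [huout i h, zero_mul])
    (1 / κ0)
    (by
      simp only [hu, hv]
      rw [hitv_root]
      exact one_div_le_one_div_of_le hκ0pos hκκ0)
    g
    (by
      intro i hi hne a ha
      have h : i.1 ∉ B0 := fun h => hne (hIin i hi h)
      have hS' : ext B a ∉ S := by
        intro hmem
        apply h
        apply hsupp _ hmem
        rw [Finsupp.mem_support_iff, ext_mem B a i.1 i.2]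
        exact ha
      simp [hg, hf', hS'])
    η 1 T hη.le hT hclose hcloseτ htrans
  have h5 : (1 - 1 / 2) * ∑ a, g a ^ 2 ≤ 1 / 4 * ∑ a, g a ^ 2 :=
    hfinal.trans (mul_le_mul_of_nonneg_right hconst (by linarith))
  linarith

end Pool.Agent.Helper41.Wob
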