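import Pool.Agent.Helper41.Wob8

set_option autoImplicit false

namespace Pool.Agent.Helper41.Wob

open Finset Filter Topology

section defect2

variable {C : Type*}

lemma Dd_comp (f : C → ℝ) (hf : Summable fun h => f h ^ 2) (e e' : Equiv.Perm C) :
    Dd f (e * e') ≤ 2 * Dd f e + 2 * Dd f e' := by
  have h1 : Summable fun h => (f (e (e' h)) - f (e' h)) ^ 2 :=
    e'.summable_iff.2 (summ_diff f hf e)
  have h2 : ∑' h, (f (e (e' h)) - f (e' h)) ^ 2 = Dd f e :=
    Equiv.tsum_eq e' (fun h => (f (e h) - f h) ^ 2)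
  have h3 := summ_diff f hf e'
  calc Dd f (e * e') = ∑' h, (f (e (e' h)) - f h) ^ 2 := rfl
    _ ≤ ∑' h, (2 * (f (e (e' h)) - f (e' h)) ^ 2 + 2 * (f (e' h) - f h) ^ 2) := by
        refine Summable.tsum_le_tsum (fun h => ?_) (summ_diff f hf (e * e'))
          ((h1.mul_left 2).add (h3.mul_left 2))
        nlinarith [sq_nonneg ((f (e (e' h)) - f (e' h)) - (f (e' h) - f h))]
    _ = 2 * Dd f e + 2 * Dd f e' := by
        rw [Summable.tsum_add (h1.mul_left 2) (h3.mul_left 2), tsum_mul_left, tsum_mul_left, h2]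
        rfl

lemma Dd_sqrt (φ : C → ℝ) (h0 : ∀ h, 0 ≤ φ h) (hs : Summable φ) (e : Equiv.Perm C) :
    Dd (fun h => Real.sqrt (φ h)) e ≤ ∑' h, |φ (e h) - φ h| := by
  have h1 : Summable fun h => |φ (e h) - φ h| := ((e.summable_iff.2 hs).sub hs).abs
  have h2 : Summable fun h => (Real.sqrt (φ h)) ^ 2 := by
    simp_rw [fun h => Real.sq_sqrt (h0 h)]; exact hs
  refine Summable.tsum_le_tsum (fun h => ?_) (summ_diff _ h2 e) h1
  have a0 := Real.sqrt_nonneg (φ (e h))
  have b0 := Real.sqrt_nonneg (φ h)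
  have e1 : φ (e h) - φ h = (Real.sqrt (φ (e h)) - Real.sqrt (φ h)) *
      (Real.sqrt (φ (e h)) + Real.sqrt (φ h)) := by
    have := Real.sq_sqrt (h0 (e h))
    have := Real.sq_sqrt (h0 h)
    nlinarith
  rw [e1, abs_mul, ← sq_abs, sq]
  refine mul_le_mul_of_nonneg_left ?_ (abs_nonneg _)
  rw [abs_of_nonneg (add_nonneg a0 b0), abs_le]
  constructor <;> linarith

end defect2

variable {X : Type*}

lemma swp_add (τ : X → X) (hτ : ∀ x, τ (τ x) = x) (q q' : X → ZMod 2) (x : X) :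
    swp τ (q + q') x = swp τ q (swp τ q' x) := by
  have hz : ∀ a b c d : ZMod 2, (a + b = c + d) ↔ ((a = c) ↔ (b = d)) := by decide
  unfold swp
  simp only [Pi.add_apply]
  by_cases h' : q' x = q' (τ x)
  · by_cases h : q x = q (τ x)
    · rw [if_pos h', if_pos h, if_pos ((hz _ _ _ _).2 ⟨fun _ => h', fun _ => h⟩)]
    · rw [if_pos h', if_neg h, if_neg (fun H => h (((hz _ _ _ _).1 H).2 h'))]
  · by_cases h : q x = q (τ x)
    · rw [if_neg h', hτ, if_pos h.symm, if_neg (fun H => h' (((hz _ _ _ _).1 H).1 h))]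
    · rw [if_neg h', hτ, if_neg (show ¬ q (τ x) = q x from fun H => h H.symm),
        if_pos ((hz _ _ _ _).2 ⟨fun H => absurd H h, fun H => absurd H h'⟩)]

lemma cperm_add (τ : X → X) (hτ : ∀ x, τ (τ x) = x) (q q' : X → ZMod 2) :
    cperm (swpPerm τ hτ (q + q')) = cperm (swpPerm τ hτ q) * cperm (swpPerm τ hτ q') := by
  apply Equiv.ext
  intro h
  ext x
  simp only [Equiv.Perm.mul_apply, cperm_apply, Finsupp.equivMapDomain_apply]
  congr 1
  have : (swpPerm τ hτ (q + q')).symm x = swp τ (q + q') x := rfl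
  rw [this]
  have e2 : (swpPerm τ hτ q').symm ((swpPerm τ hτ q).symm x) = swp τ q' (swp τ q x) := rfl
  rw [e2, add_comm, swp_add τ hτ]

lemma act_congr (τ : X → X) (hτ : ∀ x, τ (τ x) = x) (q q' : X → ZMod 2) (h : X →₀ ZMod 2)
    (H : ∀ x ∈ h.support, q x = q' x ∧ q (τ x) = q' (τ x)) :
    cperm (swpPerm τ hτ q) h = cperm (swpPerm τ hτ q') h := by
  have H1 : ∀ x ∈ h.support, swp τ q x = swp τ q' x := by
    intro x hx
    unfold swp
    rw [(H x hx).1, (H x hx).2]
  have H2 : ∀ x, swp τ q x ∈ h.support → h (swp τ q x) = h (swp τ q' x) := by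
    intro x hx
    have := H1 _ hx
    rw [swp_invol hτ] at this
    -- x = swp q' (swp q x)
    have e : swp τ q' x = swp τ q x := by
      conv_lhs => rw [this]
      rw [swp_invol hτ]
    rw [e]
  have H3 : ∀ x, swp τ q' x ∈ h.support → h (swp τ q x) = h (swp τ q' x) := by
    intro x hx
    have := H1 _ hx
    rw [swp_invol hτ] at this
    have e : swp τ q x = swp τ q' x := by
      conv_lhs => rw [← this]
      rw [swp_invol hτ]
    rw [e]
  ext x
  simp only [cperm_apply, Finsupp.equivMapDomain_apply]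
  have e1 : (swpPerm τ hτ q).symm x = swp τ q x := rfl
  have e2 : (swpPerm τ hτ q').symm x = swp τ q' x := rfl
  rw [e1, e2]
  by_cases h1 : swp τ q x ∈ h.support
  · exact H2 x h1
  · by_cases h2 : swp τ q' x ∈ h.support
    · exact H3 x h2
    · rw [Finsupp.notMem_support_iff.1 h1, Finsupp.notMem_support_iff.1 h2]

lemma closed_level (f : (X →₀ ZMod 2) → ℝ) (hf : Summable fun h => f h ^ 2) (τ : X → X)
    (hτ : ∀ x, τ (τ x) = x) (c : ℝ) :
    IsClosed {q : X → ZMod 2 | Dd f (cperm (swpPerm τ hτ q)) ≤ c} := by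
  have h1 : {q : X → ZMod 2 | Dd f (cperm (swpPerm τ hτ q)) ≤ c}
      = ⋂ S : Finset (X →₀ ZMod 2), {q : X → ZMod 2 |
        ∑ h ∈ S, (f (cperm (swpPerm τ hτ q) h) - f h) ^ 2 ≤ c} := by
    ext q
    simp only [Set.mem_ofPred_eq, Set.mem_iInter]
    constructor
    · intro H S
      exact (Summable.sum_le_tsum S (fun _ _ => sq_nonneg _) (summ_diff f hf _)).trans H
    · intro H
      exact Summable.tsum_le_of_sum_le (summ_diff f hf _) H
  rw [h1]
  refine isClosed_iInter fun S => ?_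
  refine isClosed_le (continuous_finsetSum _ fun h _ => ?_) continuous_const
  classical
  apply IsLocallyConstant.continuous
  rw [IsLocallyConstant.iff_exists_open]
  intro q
  set Λ : Finset X := h.support ∪ h.support.image τ with hΛ
  refine ⟨(Λ : Set X).pi (fun x => {q x}), isOpen_set_pi Λ.finite_toSet
    (fun x _ => isOpen_discrete _), fun x _ => rfl, fun q' hq' => ?_⟩
  have : cperm (swpPerm τ hτ q') h = cperm (swpPerm τ hτ q) h := by
    refine act_congr τ hτ q' q h fun x hx => ⟨?_, ?_⟩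
    · exact hq' x (by simp only [hΛ, Finset.coe_union]; exact Or.inl hx)
    · refine hq' (τ x) ?_
      simp only [hΛ, Finset.coe_union, Finset.coe_image]
      exact Or.inr ⟨x, hx, rfl⟩
  rw [this]

/-- uniformity over the compact group of partial swaps, by the Baire category theorem -/
lemma baire_uniform (f : ℕ → (X →₀ ZMod 2) → ℝ) (hf : ∀ n, Summable fun h => f n h ^ 2)
    (τ : X → X) (hτ : ∀ x, τ (τ x) = x)
    (H : ∀ q : X → ZMod 2, Tendsto (fun n => Dd (f n) (cperm (swpPerm τ hτ q))) atTop (𝓝 0))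
    (δ : ℝ) (hδ : 0 < δ) :
    ∀ᶠ n in atTop, ∀ q : X → ZMod 2, Dd (f n) (cperm (swpPerm τ hτ q)) ≤ δ := by
  classical
  set A : ℕ → Set (X → ZMod 2) := fun N =>
    ⋂ n : {n : ℕ // N ≤ n}, {q | Dd (f n.1) (cperm (swpPerm τ hτ q)) ≤ δ / 10} with hA
  have hAc : ∀ N, IsClosed (A N) := fun N => isClosed_iInter fun n =>
    closed_level (f n.1) (hf n.1) τ hτ _
  have hAU : ⋃ N, A N = Set.univ := by
    rw [Set.eq_univ_iff_forall]
    intro q
    have h1 := (H q).eventually (ge_mem_nhds (show (0 : ℝ) < δ / 10 by positivity))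
    obtain ⟨N, hN⟩ := eventually_atTop.1 h1
    refine Set.mem_iUnion.2 ⟨N, Set.mem_iInter.2 fun n => hN n.1 n.2⟩
  obtain ⟨N, q0, hq0⟩ := nonempty_interior_of_iUnion_of_closed hAc hAU
  obtain ⟨Λ, u, hu, hsub⟩ := isOpen_pi_iff.1 isOpen_interior q0 hq0
  have hag : ∀ q : X → ZMod 2, (∀ x ∈ Λ, q x = q0 x) → ∀ n, N ≤ n →
      Dd (f n) (cperm (swpPerm τ hτ q)) ≤ δ / 10 := by
    intro q hq n hn
    have h1 : q ∈ A N := interior_subset (hsub (fun x hx => by
      rw [hq x hx]; exact (hu x hx).2))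
    exact Set.mem_iInter.1 h1 ⟨n, hn⟩
  -- finitely many corrections
  have hfin : ∀ᶠ n in atTop, ∀ r : ↥Λ → ZMod 2,
      Dd (f n) (cperm (swpPerm τ hτ (fun x => if h : x ∈ Λ then r ⟨x, h⟩ else 0))) ≤ δ / 10 := by
    rw [eventually_all]
    intro r
    exact (H _).eventually (ge_mem_nhds (show (0 : ℝ) < δ / 10 by positivity))
  filter_upwards [hfin, eventually_ge_atTop N] with n hn hnN q
  set q1 : X → ZMod 2 := fun x => if x ∈ Λ then q0 x else q x with hq1
  set q2 : X → ZMod 2 := fun x => if x ∈ Λ then q0 x else 0 with hq2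
  set q3 : X → ZMod 2 := fun x => if h : x ∈ Λ then (fun i : ↥Λ => q i.1) ⟨x, h⟩ else 0 with hq3
  have hdec : q = q1 + (q2 + q3) := by
    funext x
    simp only [Pi.add_apply, hq1, hq2, hq3]
    by_cases hx : x ∈ Λ
    · simp only [hx, if_true, dif_pos]
      rw [← add_assoc, CharTwo.add_self_eq_zero, zero_add]
    · simp [hx]
  rw [hdec, cperm_add, cperm_add]
  have b1 := hag q1 (fun x hx => by simp [hq1, hx]) n hnN
  have b2 := hag q2 (fun x hx => by simp [hq2, hx]) n hnN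
  have b3 : Dd (f n) (cperm (swpPerm τ hτ q3)) ≤ δ / 10 := hn (fun i => q i.1)
  generalize cperm (swpPerm τ hτ q1) = e1 at *
  generalize cperm (swpPerm τ hτ q2) = e2 at *
  generalize cperm (swpPerm τ hτ q3) = e3 at *
  have c1 := Dd_comp (f n) (hf n) e1 (e2 * e3)
  have c2 := Dd_comp (f n) (hf n) e2 e3
  linarith

end Pool.Agent.Helper41.Wob
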